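import Pool.Agent.P.MP_ed12bb_co.Small

/-!
A cubic through exactly nine points.
-/

namespace Pool.Agent.P.MP_ed12bb_co

open Finset Matrix MvPolynomial Module

/-- no six of the seven points lie on a conic -/
def NoSix (I : Finset V3) : Prop := ∀ z ∈ I, ¬OnC 2 (I.erase z)

theorem exists_rel {I : Finset V3} (hI : I.card = 7) :
    ∃ c, Zs 2 I c ∧ (supp I c).Nonempty := by
  by_contra h
  push Not at h
  have := (ind_iff_supp.2 fun a ha => by simp [h a ha]).card_le (d := 2) (Z := I)
  rw [hI] at this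
  exact absurd this (by decide)

theorem NoSix.full {I : Finset V3} (h : NoSix I) (hI : I.card = 7) {c : V3 → ℝ} (hc : Zs 2 I c)
    (hne : (supp I c).Nonempty) : ∀ z ∈ I, c z ≠ 0 := by
  intro z hz e
  refine h z hz ((onC_iff_not_ind (by rw [card_erase_of_mem hz, hI]; rfl)).2 fun h1 => ?_)
  obtain ⟨w, hw⟩ := hne
  obtain ⟨hw1, hw2⟩ := mem_supp.1 hw
  refine hw2 (h1 c (hc.of_subset (erase_subset z I) fun x hx hn => ?_) w
    (mem_erase.2 ⟨fun e2 => hw2 (e2 ▸ e), hw1⟩))
  by_cases e2 : x = z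
  · rw [e2, e]
  · exact absurd (mem_erase.2 ⟨e2, hx⟩) hn

theorem NoSix.not_onC {I : Finset V3} (h : NoSix I) (hI : I.card = 7) : ¬OnC 2 I := fun e => by
  obtain ⟨z, hz⟩ := card_pos.1 (show 0 < I.card by omega)
  exact h z hz (e.mono (erase_subset z I))

theorem NoSix.line {I : Finset V3} (h : NoSix I) (hP : PD I) (hI : I.card = 7) (l : V3)
    (hl : l ≠ 0) : (zer I (lin l)).card ≤ 3 := by
  by_contra hc
  obtain ⟨B, hB, hB4⟩ := exists_subset_card_eq (show 4 ≤ (zer I (lin l)).card by omega)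
  have hBI := hB.trans (zer_subset _ _)
  obtain ⟨z, u, v, -, -, huv, e⟩ := card_eq_three.1
    (show (I \ B).card = 3 by rw [card_sdiff_of_subset hBI]; omega)
  have hz : z ∈ I \ B := by simp [e]
  have hu : u ∈ I \ B := by simp [e]
  have hv : v ∈ I \ B := by simp [e]
  refine h z (mem_sdiff.1 hz).1 ⟨lin l * lin (u ⨯₃ v), mul_ne_zero (lin_ne_zero hl)
    (lin_ne_zero (hP.2 u (mem_sdiff.1 hu).1 v (mem_sdiff.1 hv).1 huv)),
    (lin_hom _).mul (lin_hom _), fun p hp => ?_⟩
  obtain ⟨hp1, hp2⟩ := mem_erase.1 hp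
  rw [map_mul]
  by_cases hpB : p ∈ B
  · rw [(mem_zer.1 (hB hpB)).2, zero_mul]
  · have : p ∈ I \ B := mem_sdiff.2 ⟨hp2, hpB⟩
    rw [e] at this
    simp only [mem_insert, mem_singleton] at this
    rcases this with rfl | rfl | rfl
    · exact absurd rfl hp1
    · simp [cross_dot1]
    · simp [cross_dot2]

theorem base7 {S I : Finset V3} (hS : PD S) (hIS : I ⊆ S) (hI : I.card = 7) (hn : ¬OnC 2 I)
    (hl : ∀ p ∈ S, ∀ l : V3, l ≠ 0 → (zer (insert p I) (lin l)).card ≤ 4) :
    Ind 3 I ∧ ∀ p ∈ S, p ∉ I → ¬InCl 3 I p := by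
  have key : ∀ p ∈ S, Ind 3 (insert p I) := fun p hp =>
    ind_eight (hS.mono (insert_subset hp hIS)) ((card_insert_le _ _).trans (by omega)) (hl p hp)
      fun _ e => hn (e.mono (subset_insert _ _))
  obtain ⟨z, hz⟩ := card_pos.1 (show 0 < I.card by omega)
  exact ⟨(key z (hIS hz)).mono (subset_insert _ _), fun p hp hpI => (key p hp).not_inCl hpI⟩

/-- no long line: it is enough to exclude the conic alternative of the fibre lemma -/
theorem short_lines {S I : Finset V3} (hS : PD S) (hn3 : ¬OnC 3 S) (hIS : I ⊆ S)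
    (hI : I.card = 7) (hn : ¬OnC 2 I) (hl : ∀ l : V3, l ≠ 0 → (zer S (lin l)).card ≤ 4)
    (hq : ∀ c, Zs 2 I c → (supp I c).Nonempty → ∀ Q : Pol, Q ≠ 0 → Q.IsHomogeneous 2 →
      (∀ z ∈ supp I c, eval z Q = 0) → (supp I c).card + 3 ≤ (zer S Q).card → False) :
    Rz 3 S 9 := by
  obtain ⟨h1, h2⟩ := base7 hS hIS hI hn fun p hp l h =>
    (card_zer_mono (insert_subset hp hIS) _).trans (hl l h)
  obtain ⟨c, hc, hne⟩ := exists_rel hI
  have := net (A := ∅) hIS (by rw [hI]; rfl) h1 h2 ?_ (by simp) (by simp)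
    fun e => hn3 (e.mono (by simp))
  · rwa [hI] at this
  intro p hp hpI _ q hq' hqI r hr hrI hqp hrp hqr cq cr
  have two : ∀ (l u v : V3), l ≠ 0 → u ∈ S → v ∈ S → u ∉ I → v ∉ I → u ≠ v → l ⬝ᵥ u = 0 →
      l ⬝ᵥ v = 0 → (zer I (lin l)).card ≤ 2 := by
    intro l u v hl0 hu hv huI hvI huv e1 e2
    have := card_zer_add (B := {u, v}) (F := lin l) hIS (by simp [insert_subset_iff, hu, hv])
      (by simp [huI, hvI]) (by simp [e1, e2])
    rw [card_pair huv] at this
    have := hl l hl0
    omega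
  have hsub : ({p, q, r} : Finset V3) ⊆ S := by simp [insert_subset_iff, hp, hq', hr]
  have hc3 : ({p, q, r} : Finset V3).card = 3 :=
    card_eq_three.2 ⟨p, q, r, hqp.symm, hrp.symm, hqr, rfl⟩
  rcases fibre hS hIS hI hn hc hne hp hq' hr hqI hrI hqp hrp hqr (h2 q hq' hqI) (h2 r hr hrI) cq cr
    with ⟨l, l0, h3, h4 | h4 | h4⟩ | ⟨l, l0, h3, e1, e2, e3, -⟩ | ⟨Q, q0, hQ, e1, e2, e3, h4⟩
  · have := two l p q l0 hp hq' hpI hqI hqp.symm h4.1 h4.2
    omega
  · have := two l p r l0 hp hr hpI hrI hrp.symm h4.1 h4.2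
    omega
  · have := two l q r l0 hq' hr hqI hrI hqr h4.1 h4.2
    omega
  · have := card_zer_add (F := lin l) hIS hsub (by simp [hpI, hqI, hrI]) (by simp [e1, e2, e3])
    have := hl l l0
    omega
  · refine hq c hc hne Q q0 hQ h4 ?_
    have h5 := card_zer_add (F := Q) hIS hsub (by simp [hpI, hqI, hrI]) (by simp [e1, e2, e3])
    have h6 := card_le_card (s := supp I c) (t := zer I Q) fun z hz =>
      mem_zer.2 ⟨supp_subset _ _ hz, h4 z hz⟩
    omega

theorem case_none {S : Finset V3} (hS : PD S) (hn3 : ¬OnC 3 S)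
    (hl : ∀ l : V3, l ≠ 0 → (zer S (lin l)).card ≤ 4)
    (hc : ∀ Q : Pol, Q ≠ 0 → Q.IsHomogeneous 2 → (zer S Q).card ≤ 6) : Rz 3 S 9 := by
  obtain ⟨I, hIS, hI⟩ := exists_subset_card_eq
    (show 7 ≤ S.card from le_trans (by decide) (card_ge_of_not_onC hn3))
  refine short_lines hS hn3 hIS hI ?_ hl fun c h1 h2 Q q0 hQ _ h4 => ?_
  · rintro ⟨Q, q0, hQ, h⟩
    have h1 := card_le_card (s := I) (t := zer S Q) fun z hz => mem_zer.2 ⟨hIS hz, h z hz⟩
    have := hc Q q0 hQ
    omega
  · have := h1.card_supp (hS.mono hIS) h2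
    have := hc Q q0 hQ
    omega

theorem case_conic {S : Finset V3} (hS : PD S) (hn3 : ¬OnC 3 S)
    (hl : ∀ l : V3, l ≠ 0 → (zer S (lin l)).card ≤ 4) {Q : Pol} (q0 : Q ≠ 0)
    (hQ : Q.IsHomogeneous 2) (hc : 10 ≤ (zer S Q).card) : Rz 3 S 9 := by
  classical
  have no3 := conic_no_three hS hl q0 hQ (by omega) (by omega)
  set A := zer S Q with hA
  have hAS : A ⊆ S := zer_subset _ _
  have hR : ¬OnC 1 (S \ A) := not_onC_sdiff (e := 2) hn3 q0 hQ
  obtain ⟨t1, ht1, t2, ht2, ht⟩ := one_lt_card.1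
    (show 1 < (S \ A).card from lt_of_lt_of_le (by decide) (card_ge_of_not_onC hR))
  obtain ⟨t1S, t1A⟩ := mem_sdiff.1 ht1
  obtain ⟨t2S, t2A⟩ := mem_sdiff.1 ht2
  have t12 : t1 ⨯₃ t2 ≠ 0 := hS.2 t1 t1S t2 t2S ht
  -- available points: at most one of them on the line t1 t2
  obtain ⟨Av, hAv, hAv9, hAv1⟩ : ∃ Av ⊆ A, 9 ≤ Av.card ∧ (zer Av (lin (t1 ⨯₃ t2))).card ≤ 1 := by
    by_cases h : (zer A (lin (t1 ⨯₃ t2))).Nonempty
    · obtain ⟨z, hz⟩ := h
      refine ⟨A.erase z, erase_subset _ _, by rw [card_erase_of_mem (zer_subset _ _ hz)]; omega, ?_⟩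
      have h1 := no3 _ t12
      have h2 : zer (A.erase z) (lin (t1 ⨯₃ t2)) ⊆ (zer A (lin (t1 ⨯₃ t2))).erase z :=
        fun w hw => mem_erase.2 ⟨(mem_erase.1 (mem_zer.1 hw).1).1,
          mem_zer.2 ⟨(mem_erase.1 (mem_zer.1 hw).1).2, (mem_zer.1 hw).2⟩⟩
      have h3 := card_le_card h2
      rw [card_erase_of_mem hz] at h3
      omega
    · exact ⟨A, subset_rfl, by omega, by simp [not_nonempty_iff_eq_empty.1 h]⟩
  have five : ∀ K ⊆ A, K.card = 5 → ∀ t ∈ S \ A, ¬OnC 2 (insert t K) := by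
    intro K hK h5 t ht h
    have := onC_inCl (ind_small (hS.mono (hK.trans hAS)) h5.le fun l hl0 =>
      ((card_zer_mono hK _).trans (no3 l hl0)).trans (by omega)) (by rw [h5]; rfl)
      (fun e => (mem_sdiff.1 ht).2 (hK e)) h Q hQ fun p hp => (mem_zer.1 (hK hp)).2
    exact (mem_sdiff.1 ht).2 (mem_zer.2 ⟨(mem_sdiff.1 ht).1, this⟩)
  let bad : Finset V3 → Finset V3 := fun B =>
    Av.filter fun a => a ∉ B ∧ OnC 2 (insert a (insert t1 (insert t2 B)))
  have hbad : ∀ B ⊆ Av, B.card = 3 → (bad B).card ≤ 1 := by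
    intro B hB h3
    have hBA := hB.trans hAv
    have hK : (insert t1 (insert t2 B)).card = 5 := by
      rw [card_insert_of_notMem (by
        simp only [mem_insert, not_or]; exact ⟨ht, fun e => t1A (hBA e)⟩),
        card_insert_of_notMem fun e => t2A (hBA e), h3]
    have hKS : insert t1 (insert t2 B) ⊆ S := insert_subset t1S (insert_subset t2S (hBA.trans hAS))
    have hKi : Ind 2 (insert t1 (insert t2 B)) := by
      refine ind_small (hS.mono hKS) hK.le fun l hl0 => ?_
      have h4 := (card_zer_mono hBA _).trans (no3 l hl0)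
      by_cases e1 : l ⬝ᵥ t1 = 0
      · by_cases e2 : l ⬝ᵥ t2 = 0
        · have h5 : (zer B (lin l)).card ≤ 1 := le_trans (card_le_card fun z hz =>
            mem_zer.2 ⟨hB (mem_zer.1 hz).1, by
              simpa using same_line hS hl0 t1S t2S ht e1 e2 (cross_dot1 _ _) (cross_dot2 _ _)
                (by simpa using (mem_zer.1 hz).2)⟩) hAv1
          have := card_zer_insert t1 (insert t2 B) (lin l)
          have := card_zer_insert t2 B (lin l)
          omega
        · have h5 : zer (insert t1 (insert t2 B)) (lin l) ⊆ zer (insert t1 B) (lin l) := by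
            intro z hz
            obtain ⟨h6, h7⟩ := mem_zer.1 hz
            refine mem_zer.2 ⟨?_, h7⟩
            simp only [mem_insert] at h6 ⊢
            rcases h6 with h6 | rfl | h6
            · exact Or.inl h6
            · exact absurd (by simpa using h7) e2
            · exact Or.inr h6
          have := card_le_card h5
          have := card_zer_insert t1 B (lin l)
          omega
      · have h5 : zer (insert t1 (insert t2 B)) (lin l) ⊆ zer (insert t2 B) (lin l) := by
          intro z hz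
          obtain ⟨h6, h7⟩ := mem_zer.1 hz
          rcases mem_insert.1 h6 with rfl | h6
          · exact absurd (by simpa using h7) e1
          · exact mem_zer.2 ⟨h6, h7⟩
        have := card_le_card h5
        have := card_zer_insert t2 B (lin l)
        omega
    rw [card_le_one]
    intro a ha b hb
    by_contra hab
    obtain ⟨a1, a2, a3⟩ := mem_filter.1 ha
    obtain ⟨b1, b2, b3⟩ := mem_filter.1 hb
    have nK : ∀ x ∈ Av, x ∉ B → x ∉ insert t1 (insert t2 B) := fun x hx hxB e => by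
      simp only [mem_insert] at e
      rcases e with rfl | rfl | e
      · exact t1A (hAv hx)
      · exact t2A (hAv hx)
      · exact hxB e
    obtain ⟨G, g0, hG, h5⟩ := onC_of_card_lt (d := 2) (A := insert t1 (insert t2 B))
      (by rw [hK]; decide)
    have ea := onC_inCl hKi (by rw [hK]; rfl) (nK a a1 a2) a3 G hG h5
    have eb := onC_inCl hKi (by rw [hK]; rfl) (nK b b1 b2) b3 G hG h5
    refine five (insert a (insert b B)) (insert_subset (hAv a1) (insert_subset (hAv b1) hBA))
      (by rw [card_insert_of_notMem (by simp [hab, a2]), card_insert_of_notMem b2, h3]) t1 ht1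
      ⟨G, g0, hG, fun z hz => ?_⟩
    simp only [mem_insert] at hz
    rcases hz with rfl | rfl | rfl | hz
    · exact h5 _ (by simp)
    · exact ea
    · exact eb
    · exact h5 _ (by simp [hz])
  have build : ∀ k ≤ 5, ∃ Cs ⊆ Av, Cs.card = k ∧
      ∀ B ⊆ Cs, B.card = 4 → ¬OnC 2 (insert t1 (insert t2 B)) := by
    intro k
    induction k with
    | zero =>
      exact fun _ => ⟨∅, empty_subset _, rfl, fun B hB h => by simp [subset_empty.1 hB] at h⟩
    | succ k ih =>
      intro hk
      obtain ⟨Cs, h1, h2, h3⟩ := ih (by omega)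
      have h4 : ((powersetCard 3 Cs).biUnion bad).card ≤ (powersetCard 3 Cs).card * 1 :=
        card_biUnion_le_card_mul _ _ _ fun B hB =>
          hbad B ((mem_powersetCard.1 hB).1.trans h1) (mem_powersetCard.1 hB).2
      rw [card_powersetCard, h2] at h4
      have h5 : k.choose 3 ≤ 4 := by
        have : k ≤ 4 := by omega
        interval_cases k <;> decide
      have h6 := card_union_le Cs ((powersetCard 3 Cs).biUnion bad)
      obtain ⟨a, ha, han⟩ := exists_mem_notMem_of_card_lt_card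
        (show (Cs ∪ (powersetCard 3 Cs).biUnion bad).card < Av.card by omega)
      simp only [mem_union, mem_biUnion, not_or, not_exists, not_and] at han
      refine ⟨insert a Cs, insert_subset ha h1, by rw [card_insert_of_notMem han.1, h2],
        fun B hB h7 h8 => ?_⟩
      by_cases haB : a ∈ B
      · refine han.2 (B.erase a) (mem_powersetCard.2 ⟨subset_insert_iff.1 hB,
          by rw [card_erase_of_mem haB, h7]⟩) (mem_filter.2 ⟨ha, by simp, h8.mono fun z hz => ?_⟩)
        simp only [mem_insert, mem_erase] at hz ⊢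
        rcases hz with rfl | rfl | rfl | hz
        · exact Or.inr (Or.inr haB)
        · exact Or.inl rfl
        · exact Or.inr (Or.inl rfl)
        · exact Or.inr (Or.inr hz.2)
      · exact h3 B ((subset_insert_iff_of_notMem haB).1 hB) h7 h8
  obtain ⟨Cs, h1, h2, h3⟩ := build 5 le_rfl
  have hCA := h1.trans hAv
  have hI : (insert t1 (insert t2 Cs)).card = 7 := by
    rw [card_insert_of_notMem (by
      simp only [mem_insert, not_or]; exact ⟨ht, fun e => t1A (hCA e)⟩),
      card_insert_of_notMem fun e => t2A (hCA e), h2]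
  have hIS : insert t1 (insert t2 Cs) ⊆ S := insert_subset t1S (insert_subset t2S (hCA.trans hAS))
  have hsix : NoSix (insert t1 (insert t2 Cs)) := by
    intro z hz h
    simp only [mem_insert] at hz
    rcases hz with rfl | rfl | hz
    · refine five Cs hCA h2 t2 ht2 (h.mono fun w hw => mem_erase.2 ⟨?_, mem_insert_of_mem hw⟩)
      rintro rfl
      rcases mem_insert.1 hw with e | e
      · exact ht e
      · exact t1A (hCA e)
    · refine five Cs hCA h2 t1 ht1 (h.mono fun w hw => mem_erase.2 ⟨?_, ?_⟩)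
      · rintro rfl
        rcases mem_insert.1 hw with e | e
        · exact ht e.symm
        · exact t2A (hCA e)
      · simp only [mem_insert] at hw ⊢
        tauto
    · refine h3 (Cs.erase z) (erase_subset _ _) (by rw [card_erase_of_mem hz, h2])
        (h.mono fun w hw => mem_erase.2 ?_)
      simp only [mem_insert, mem_erase] at hw ⊢
      rcases hw with rfl | rfl | hw
      · exact ⟨fun e => t1A (hCA (e ▸ hz)), Or.inl rfl⟩
      · exact ⟨fun e => t2A (hCA (e ▸ hz)), Or.inr (Or.inl rfl)⟩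
      · exact ⟨hw.1, Or.inr (Or.inr hw.2)⟩
  exact short_lines hS hn3 hIS hI (hsix.not_onC hI) hl fun c h4 h5 G g0 hG h6 _ =>
    hsix.not_onC hI ⟨G, g0, hG, fun z hz => h6 z (mem_supp.2 ⟨hz, hsix.full hI h4 h5 z hz⟩)⟩

end Pool.Agent.P.MP_ed12bb_co
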