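import Pool.Agent.P.MP_ed12bb_co.Line

/-!
The case of degree three: a finite set of points of the real projective plane that is not
contained in a cubic curve has a cubic curve through exactly nine of its points.
-/

open Finset Matrix MvPolynomial Pool.Agent.P.MP_ed12bb_co

theorem Pool.Agent.P.MP_ed12bb_co.cubic_result
    (P : Finset (Projectivization ℝ (Fin 3 → ℝ)))
    (hP : ¬∃ F : MvPolynomial (Fin 3) ℝ, F ≠ 0 ∧ F.IsHomogeneous 3 ∧
      ∀ p ∈ P, MvPolynomial.eval p.rep F = 0) :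
    ∃ F : MvPolynomial (Fin 3) ℝ, F ≠ 0 ∧ F.IsHomogeneous 3 ∧
      {p | p ∈ P ∧ MvPolynomial.eval p.rep F = 0}.ncard = 9 := by
  classical
  have hinj : Function.Injective
      (fun p : Projectivization ℝ (Fin 3 → ℝ) => p.rep) := fun p q h => by
    have hp := Projectivization.mk_rep p
    have hq := Projectivization.mk_rep q
    rw [← hp, ← hq]
    simp only at h
    congr 1
  have hS : PD (P.image fun p => p.rep) := by
    constructor
    · intro v hv
      obtain ⟨p, -, rfl⟩ := mem_image.1 hv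
      exact p.rep_nonzero
    · intro v hv w hw hne
      obtain ⟨p, -, rfl⟩ := mem_image.1 hv
      obtain ⟨q, -, rfl⟩ := mem_image.1 hw
      have hpq : p ≠ q := fun e => hne (by rw [e])
      rw [crossProduct_ne_zero_iff_linearIndependent]
      exact Projectivization.linearIndependent_pair_iff_ne.2 hpq
  have hn : ¬OnC 3 (P.image fun p => p.rep) := fun ⟨F, h0, h1, h2⟩ =>
    hP ⟨F, h0, h1, fun p hp => h2 _ (mem_image_of_mem _ hp)⟩
  obtain ⟨F, h0, h1, h2⟩ := cubic hS hn
  refine ⟨F, h0, h1, ?_⟩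
  rw [← h2, ← Set.ncard_image_of_injective _ hinj, ← Set.ncard_coe_finset]
  congr 1
  ext v
  simp only [Set.mem_image, Set.mem_ofPred_eq, mem_coe, mem_zer, mem_image]
  constructor
  · rintro ⟨p, ⟨hp, hz⟩, rfl⟩
    exact ⟨⟨p, hp, rfl⟩, hz⟩
  · rintro ⟨⟨p, hp, rfl⟩, hz⟩
    exact ⟨p, ⟨hp, hz⟩, rfl⟩
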