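import Pool.Agent.P.MP_ed12bb_co.SG

/-!
Forms on finite point sets: vanishing spaces, relations between evaluations.
-/

namespace Pool.Agent.P.MP_ed12bb_co

open Finset Matrix MvPolynomial Module

/-- ternary polynomials -/
abbrev Pol := MvPolynomial (Fin 3) ℝ

/-- ternary forms of degree d -/
abbrev Hs (d : ℕ) := homogeneousSubmodule (Fin 3) ℝ d

/-- nonzero, pairwise non proportional vectors -/
def PD (S : Finset V3) : Prop := (∀ p ∈ S, p ≠ 0) ∧ ∀ p ∈ S, ∀ q ∈ S, p ≠ q → p ⨯₃ q ≠ 0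

theorem PD.mono {S T : Finset V3} (h : PD S) (hT : T ⊆ S) : PD T :=
  ⟨fun p hp => h.1 p (hT hp), fun p hp q hq => h.2 p (hT hp) q (hT hq)⟩

/-- the linear form with given coefficients -/
noncomputable def lin (l : V3) : Pol := ∑ i, C (l i) * X i

@[simp] theorem eval_lin (p l : V3) : eval p (lin l) = l ⬝ᵥ p := by
  simp [lin, dotProduct]

theorem lin_hom (l : V3) : (lin l).IsHomogeneous 1 :=
  IsHomogeneous.sum _ _ _ fun i _ => by
    simpa using (isHomogeneous_C (Fin 3) (l i)).mul (isHomogeneous_X ℝ i)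

theorem lin_ne_zero {l : V3} (h : l ≠ 0) : lin l ≠ 0 := fun e => by
  have := eval_lin l l
  rw [e, map_zero] at this
  exact h (dotProduct_self_eq_zero.1 this.symm)

/-- the set lies on a curve of degree d -/
def OnC (d : ℕ) (A : Finset V3) : Prop :=
  ∃ F : Pol, F ≠ 0 ∧ F.IsHomogeneous d ∧ ∀ p ∈ A, eval p F = 0

/-- the set lies on a line -/
def Col (A : Finset V3) : Prop := ∃ l : V3, l ≠ 0 ∧ ∀ p ∈ A, l ⬝ᵥ p = 0

/-- zeros of a polynomial in a finite set -/
noncomputable def zer (S : Finset V3) (F : Pol) : Finset V3 := by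
  classical exact S.filter fun p => eval p F = 0

theorem mem_zer {S : Finset V3} {F : Pol} {p : V3} : p ∈ zer S F ↔ p ∈ S ∧ eval p F = 0 := by
  simp [zer]

theorem zer_subset (S : Finset V3) (F : Pol) : zer S F ⊆ S := fun _ h => (mem_zer.1 h).1

/-- some curve of degree d passes through exactly k points -/
def Rz (d : ℕ) (S : Finset V3) (k : ℕ) : Prop :=
  ∃ F : Pol, F ≠ 0 ∧ F.IsHomogeneous d ∧ (zer S F).card = k

/-- every form of degree d vanishing on A vanishes at q -/
def InCl (d : ℕ) (A : Finset V3) (q : V3) : Prop :=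
  ∀ F : Pol, F.IsHomogeneous d → (∀ p ∈ A, eval p F = 0) → eval q F = 0

/-- a linear relation between evaluations of forms of degree d -/
def Zs (d : ℕ) (Z : Finset V3) (a : V3 → ℝ) : Prop :=
  ∀ F : Pol, F.IsHomogeneous d → ∑ z ∈ Z, a z * eval z F = 0

/-- independent conditions on forms of degree d -/
def Ind (d : ℕ) (Z : Finset V3) : Prop := ∀ a, Zs d Z a → ∀ z ∈ Z, a z = 0

/-- support of a relation -/
noncomputable def supp (Z : Finset V3) (a : V3 → ℝ) : Finset V3 := by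
  classical exact Z.filter fun p => a p ≠ 0

theorem mem_supp {Z : Finset V3} {a : V3 → ℝ} {p : V3} : p ∈ supp Z a ↔ p ∈ Z ∧ a p ≠ 0 := by
  simp [supp]

theorem supp_subset (Z : Finset V3) (a : V3 → ℝ) : supp Z a ⊆ Z := fun _ h => (mem_supp.1 h).1

theorem OnC.mono {d : ℕ} {A B : Finset V3} (h : OnC d A) (hB : B ⊆ A) : OnC d B :=
  let ⟨F, h0, h1, h2⟩ := h
  ⟨F, h0, h1, fun p hp => h2 p (hB hp)⟩

theorem Col.mono {A B : Finset V3} (h : Col A) (hB : B ⊆ A) : Col B :=
  let ⟨l, h0, h2⟩ := h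
  ⟨l, h0, fun p hp => h2 p (hB hp)⟩

theorem Col.onC {A : Finset V3} (h : Col A) : OnC 1 A :=
  let ⟨l, h0, h2⟩ := h
  ⟨lin l, lin_ne_zero h0, lin_hom l, fun p hp => by simpa using h2 p hp⟩

theorem InCl.mono {d : ℕ} {A B : Finset V3} {q : V3} (h : InCl d A q) (hB : A ⊆ B) :
    InCl d B q := fun F hF h2 => h F hF fun p hp => h2 p (hB hp)

theorem Zs.of_subset {d : ℕ} {Z Y : Finset V3} {a : V3 → ℝ} (h : Zs d Z a) (hY : Y ⊆ Z)
    (h0 : ∀ z ∈ Z, z ∉ Y → a z = 0) : Zs d Y a := fun F hF => by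
  rw [← h F hF]
  exact sum_subset hY fun z hz hzY => by rw [h0 z hz hzY, zero_mul]

theorem Zs.of_superset {d : ℕ} {Z Y : Finset V3} {a : V3 → ℝ} (h : Zs d Y a) (hY : Y ⊆ Z)
    (h0 : ∀ z ∈ Z, z ∉ Y → a z = 0) : Zs d Z a := fun F hF => by
  rw [← h F hF]
  exact (sum_subset hY fun z hz hzY => by rw [h0 z hz hzY, zero_mul]).symm

theorem Zs.toSupp {d : ℕ} {Z : Finset V3} {a : V3 → ℝ} (h : Zs d Z a) : Zs d (supp Z a) a :=
  h.of_subset (supp_subset Z a) fun z hz hn => by
    by_contra hc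
    exact hn (mem_supp.2 ⟨hz, hc⟩)

theorem Zs.mul {d e : ℕ} {Z : Finset V3} {a : V3 → ℝ} (h : Zs (e + d) Z a) {G : Pol}
    (hG : G.IsHomogeneous e) : Zs d Z fun z => a z * eval z G := fun F hF => by
  rw [← h (G * F) (hG.mul hF)]
  exact sum_congr rfl fun z _ => by rw [map_mul, mul_assoc]

theorem Zs.comb {d : ℕ} {Z : Finset V3} {a b : V3 → ℝ} (ha : Zs d Z a) (hb : Zs d Z b)
    (s t : ℝ) : Zs d Z fun z => s * a z + t * b z := fun F hF => by
  have : ∑ z ∈ Z, (s * a z + t * b z) * eval z F =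
      s * ∑ z ∈ Z, a z * eval z F + t * ∑ z ∈ Z, b z * eval z F := by
    rw [mul_sum, mul_sum, ← sum_add_distrib]
    exact sum_congr rfl fun z _ => by ring
  rw [this, ha F hF, hb F hF]
  simp

theorem Ind.mono {d : ℕ} {Z Y : Finset V3} (h : Ind d Z) (hY : Y ⊆ Z) : Ind d Y := by
  classical
  intro a ha z hz
  have := h (fun w => if w ∈ Y then a w else 0) (Zs.of_superset (Y := Y) (fun F hF => by
    rw [← ha F hF]
    exact sum_congr rfl fun w hw => by simp [hw]) hY fun w _ hw => by simp [hw]) z (hY hz)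
  simpa [hz] using this

theorem finrank_Hs (d : ℕ) : finrank ℝ (Hs d) = (d + 2).choose 2 := by
  have h : homogeneousSubmodule (Fin 3) ℝ d =
      restrictSupport ℝ ((univ : Finset (Fin 3)).finsuppAntidiag d : Set (Fin 3 →₀ ℕ)) := by
    rw [homogeneousSubmodule_eq_finsupp_supported, restrictSupport]
    congr 1
    ext α
    simp [Finsupp.degree_eq_sum]
  rw [Hs, h, Module.finrank_eq_nat_card_basis (basisRestrictSupport ℝ _)]
  rw [Nat.card_coe_set_eq, Set.ncard_coe_finset, card_finsuppAntidiag_nat_eq_choose, card_fin]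
  rw [show 3 + d - 1 = d + 2 by omega]
  exact Nat.choose_symm_add

instance (d : ℕ) : FiniteDimensional ℝ (Hs d) :=
  Module.Finite.iff_fg.2 (homogeneousSubmodule_fg (Fin 3) ℝ d)

/-- evaluation at a point as a functional on forms -/
noncomputable def ev (d : ℕ) (p : V3) : Module.Dual ℝ (Hs d) where
  toFun F := eval p (F : Pol)
  map_add' F G := by simp
  map_smul' c F := by simp

@[simp] theorem ev_apply (d : ℕ) (p : V3) (F : Hs d) : ev d p F = eval p (F : Pol) := rfl

/-- evaluation on a finite set -/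
noncomputable def evs (d : ℕ) (A : Finset V3) : Hs d →ₗ[ℝ] (A → ℝ) :=
  LinearMap.pi fun p => ev d p

/-- forms of degree d vanishing on A -/
noncomputable def van (d : ℕ) (A : Finset V3) : Submodule ℝ (Hs d) := LinearMap.ker (evs d A)

theorem mem_van {d : ℕ} {A : Finset V3} {F : Hs d} :
    F ∈ van d A ↔ ∀ p ∈ A, eval p (F : Pol) = 0 := by
  simp [van, evs, funext_iff]

theorem ind_iff_surj {d : ℕ} {A : Finset V3} : Ind d A ↔ LinearMap.range (evs d A) = ⊤ := by
  classical
  constructor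
  · intro h
    by_contra hne
    obtain ⟨f, hf0, hf⟩ := Submodule.exists_le_ker_of_lt_top _ (lt_top_iff_ne_top.2 hne)
    let a : V3 → ℝ := fun z => if hz : z ∈ A then f (Pi.single ⟨z, hz⟩ 1) else 0
    have key : ∀ v : A → ℝ, f v = ∑ z : A, a z * v z := fun v => by
      conv_lhs => rw [← Finset.univ_sum_single v, map_sum]
      refine sum_congr rfl fun z _ => ?_
      have : (Pi.single z (v z) : A → ℝ) = v z • Pi.single z 1 := by
        rw [← Pi.single_smul]; simp
      rw [this, map_smul]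
      simp [a, mul_comm]
    have hz : Zs d A a := fun F hF => by
      have := hf (LinearMap.mem_range_self (evs d A) ⟨F, hF⟩)
      rw [LinearMap.mem_ker, key] at this
      rw [← this, ← sum_coe_sort]
      rfl
    apply hf0
    ext v
    simp only [LinearMap.comp_apply, LinearMap.zero_apply, key]
    exact sum_eq_zero fun z _ => by rw [h a hz z z.2, zero_mul]
  · intro h a ha z hz
    obtain ⟨F, hF⟩ : (fun w : A => a w) ∈ LinearMap.range (evs d A) := h ▸ Submodule.mem_top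
    have h1 := ha F F.2
    have h2 : ∀ w ∈ A, eval w (F : Pol) = a w := fun w hw => congrFun hF ⟨w, hw⟩
    rw [sum_congr rfl fun w hw => by rw [h2 w hw]] at h1
    have := (sum_eq_zero_iff_of_nonneg fun w _ => mul_self_nonneg (a w)).1 h1 z hz
    exact mul_self_eq_zero.1 this

theorem finrank_van_add (d : ℕ) (A : Finset V3) :
    finrank ℝ (LinearMap.range (evs d A)) + finrank ℝ (van d A) = (d + 2).choose 2 := by
  rw [← finrank_Hs, van]
  exact LinearMap.finrank_range_add_finrank_ker _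

theorem finrank_range_le (d : ℕ) (A : Finset V3) :
    finrank ℝ (LinearMap.range (evs d A)) ≤ A.card := by
  simpa using Submodule.finrank_le (LinearMap.range (evs d A))

theorem Ind.finrank_van {d : ℕ} {A : Finset V3} (h : Ind d A) :
    A.card + finrank ℝ (van d A) = (d + 2).choose 2 := by
  rw [← finrank_van_add d A, ind_iff_surj.1 h]
  simp

theorem finrank_van_of_not_ind {d : ℕ} {A : Finset V3} (h : ¬Ind d A) :
    (d + 2).choose 2 + 1 ≤ A.card + finrank ℝ (van d A) := by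
  have h1 := finrank_van_add d A
  have h2 : finrank ℝ (LinearMap.range (evs d A)) < A.card := by
    simpa using Submodule.finrank_lt (s := LinearMap.range (evs d A)) fun e => h (ind_iff_surj.2 e)
  omega

theorem onC_iff {d : ℕ} {A : Finset V3} : OnC d A ↔ 0 < finrank ℝ (van d A) := by
  refine Iff.trans ?_ (Module.finrank_pos_iff_exists_ne_zero (R := ℝ) (M := van d A)).symm
  constructor
  · rintro ⟨F, h0, h1, h2⟩
    exact ⟨⟨⟨F, h1⟩, mem_van.2 h2⟩, fun e => h0 (congrArg (fun w => (w.1.1 : Pol)) e)⟩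
  · rintro ⟨F, h0⟩
    exact ⟨F.1.1, fun e => h0 (Subtype.ext (Subtype.ext e)), F.1.2, mem_van.1 F.2⟩

theorem onC_of_card_lt {d : ℕ} {A : Finset V3} (h : A.card < (d + 2).choose 2) : OnC d A := by
  have h1 := finrank_van_add d A
  have h2 := finrank_range_le d A
  rw [onC_iff]
  omega

theorem onC_iff_not_ind {d : ℕ} {A : Finset V3} (h : A.card = (d + 2).choose 2) :
    OnC d A ↔ ¬Ind d A := by
  rw [onC_iff]
  constructor
  · intro h1 h2
    have := h2.finrank_van
    omega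
  · intro h1
    have := finrank_van_of_not_ind h1
    omega

theorem Ind.interp {d : ℕ} {A : Finset V3} (h : Ind d A) (v : V3 → ℝ) :
    ∃ F : Pol, F.IsHomogeneous d ∧ ∀ p ∈ A, eval p F = v p := by
  obtain ⟨F, hF⟩ : (fun w : A => v w) ∈ LinearMap.range (evs d A) :=
    ind_iff_surj.1 h ▸ Submodule.mem_top
  exact ⟨F, F.2, fun p hp => congrFun hF ⟨p, hp⟩⟩

theorem Ind.not_inCl {d : ℕ} {A : Finset V3} {q : V3} (h : Ind d (insert q A)) (hq : q ∉ A) :
    ¬InCl d A q := by
  classical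
  obtain ⟨F, hF, h2⟩ := h.interp fun p => if p = q then 1 else 0
  intro hc
  have := hc F hF fun p hp => by
    rw [h2 p (mem_insert_of_mem hp), if_neg (fun e : p = q => hq (e ▸ hp))]
  rw [h2 q (mem_insert_self _ _)] at this
  simp at this

/-- a point in the closure gives a relation with coefficient one at the point -/
theorem InCl.rel {d : ℕ} {A : Finset V3} {q : V3} (h : InCl d A q) (hq : q ∉ A) :
    ∃ a : V3 → ℝ, Zs d (insert q A) a ∧ a q = 1 ∧ ∀ z, z ∉ insert q A → a z = 0 := by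
  classical
  have hm : ev d q ∈ Submodule.span ℝ (Set.range fun p : A => ev d p) := by
    refine mem_span_of_iInf_ker_le_ker fun F hF => ?_
    simp only [Submodule.mem_iInf, LinearMap.mem_ker, ev_apply] at hF ⊢
    exact h F F.2 fun p hp => hF ⟨p, hp⟩
  obtain ⟨c, hc⟩ := (Submodule.mem_span_range_iff_exists_fun ℝ).1 hm
  refine ⟨fun z => if z = q then 1 else if hz : z ∈ A then -c ⟨z, hz⟩ else 0, fun F hF => ?_,
    by simp, fun z hz => ?_⟩
  · rw [sum_insert hq]
    dsimp only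
    rw [if_pos rfl, one_mul, ← sum_coe_sort]
    have := congrArg (fun f => f ⟨F, hF⟩) hc
    simp only [LinearMap.coe_sum, Finset.sum_apply, LinearMap.smul_apply, ev_apply,
      smul_eq_mul] at this
    rw [← this, ← sum_add_distrib]
    refine sum_eq_zero fun z _ => ?_
    rw [if_neg (fun e : z.1 = q => hq (e ▸ z.2)), dif_pos z.2]
    simp
  · simp only [mem_insert, not_or] at hz
    simp [hz.1, hz.2]

theorem ind_insert {d : ℕ} {A : Finset V3} {q : V3} (hA : Ind d A) (h : ¬InCl d A q) :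
    Ind d (insert q A) := by
  classical
  by_cases hq : q ∈ A
  · rwa [insert_eq_of_mem hq]
  intro a ha
  unfold InCl at h
  push Not at h
  obtain ⟨F, hF, h1, h2⟩ := h
  have h3 := ha F hF
  rw [sum_insert hq, sum_eq_zero fun z hz => by rw [h1 z hz, mul_zero], add_zero] at h3
  have h4 : a q = 0 := (mul_eq_zero.1 h3).resolve_right h2
  have h5 := hA a (ha.of_subset (subset_insert _ _) fun z hz hn => by
    rcases mem_insert.1 hz with rfl | hz
    · exact h4
    · exact absurd hz hn)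
  intro z hz
  rcases mem_insert.1 hz with rfl | hz
  · exact h4
  · exact h5 z hz

/-- a closed subset is cut out by one form -/
theorem rz_of_flat {d : ℕ} {S A : Finset V3} (hA : A ⊆ S) (hne : ∃ q ∈ S, q ∉ A)
    (h : ∀ q ∈ S, q ∉ A → ¬InCl d A q) : Rz d S A.card := by
  classical
  obtain ⟨F, hF, h2⟩ := Module.Dual.exists_forall_mem_ne_zero_of_forall_exists (van d A)
    (fun q : (S \ A : Finset V3) => ev d q) fun q => by
      have := h q (mem_sdiff.1 q.2).1 (mem_sdiff.1 q.2).2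
      unfold InCl at this
      push Not at this
      obtain ⟨F, hF, h1, h2⟩ := this
      exact ⟨⟨F, hF⟩, mem_van.2 h1, h2⟩
  refine ⟨F, fun e => ?_, F.2, ?_⟩
  · obtain ⟨q, hq, hqA⟩ := hne
    apply h2 ⟨q, mem_sdiff.2 ⟨hq, hqA⟩⟩
    simp [e]
  · congr 1
    ext p
    rw [mem_zer]
    constructor
    · rintro ⟨hp, h0⟩
      by_contra hn
      exact h2 ⟨p, mem_sdiff.2 ⟨hp, hn⟩⟩ h0
    · exact fun hp => ⟨hA hp, mem_van.1 hF p hp⟩

theorem not_onC_sdiff {d e : ℕ} {S : Finset V3} (hS : ¬OnC (e + d) S) {F : Pol} (h0 : F ≠ 0)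
    (hF : F.IsHomogeneous e) : ¬OnC d (S \ zer S F) := by
  classical
  rintro ⟨G, g0, hG, h2⟩
  refine hS ⟨F * G, mul_ne_zero h0 g0, hF.mul hG, fun p hp => ?_⟩
  rw [map_mul]
  by_cases h : eval p F = 0
  · rw [h, zero_mul]
  · rw [h2 p (mem_sdiff.2 ⟨hp, fun h3 => h (mem_zer.1 h3).2⟩), mul_zero]

theorem rz_mul {d e k : ℕ} {S : Finset V3} {F : Pol} (h0 : F ≠ 0) (hF : F.IsHomogeneous e)
    (h : Rz d (S \ zer S F) k) : Rz (e + d) S ((zer S F).card + k) := by
  classical
  obtain ⟨G, g0, hG, h2⟩ := h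
  refine ⟨F * G, mul_ne_zero h0 g0, hF.mul hG, ?_⟩
  rw [← h2, ← card_union_of_disjoint]
  · congr 1
    ext p
    simp only [mem_zer, map_mul, mul_eq_zero, mem_union, mem_sdiff]
    tauto
  · rw [disjoint_left]
    intro p hp hq
    exact (mem_sdiff.1 (mem_zer.1 hq).1).2 hp

/-- a line through p missing q -/
theorem sep_line {p q : V3} (h : p ⨯₃ q ≠ 0) : ∃ l : V3, l ⬝ᵥ p = 0 ∧ l ⬝ᵥ q ≠ 0 := by
  obtain ⟨z, h1, h2⟩ := exists_line_through {q} id p fun w hw => by
    rw [mem_singleton.1 hw, ← cross_anticomm]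
    exact neg_ne_zero.2 h
  exact ⟨z, h1, h2 q (mem_singleton_self q)⟩

theorem Zs.two_le {d : ℕ} {Z : Finset V3} {a : V3 → ℝ} (hZ : PD Z) (h : Zs d Z a)
    {z : V3} (hz : z ∈ supp Z a) : ∃ w ∈ supp Z a, w ≠ z := by
  by_contra hc
  push Not at hc
  have h1 := h.toSupp ((lin z) ^ d) (by simpa using (lin_hom z).pow d)
  rw [sum_eq_single z (fun w hw hne => absurd (hc w hw) hne) (fun hn => absurd hz hn)] at h1
  simp only [map_pow, eval_lin, mul_eq_zero] at h1
  rcases h1 with h1 | h1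
  · exact (mem_supp.1 hz).2 h1
  · exact hZ.1 z (mem_supp.1 hz).1 (dotProduct_self_eq_zero.1 (pow_eq_zero_iff'.1 h1).1)

theorem supp_mul_lin (Z : Finset V3) (a : V3 → ℝ) (l : V3) :
    supp Z (fun z => a z * eval z (lin l)) = supp Z a \ zer (supp Z a) (lin l) := by
  ext p
  simp only [mem_supp, mem_sdiff, mem_zer, ne_eq, mul_eq_zero]
  tauto

theorem Zs.card_supp {d : ℕ} {Z : Finset V3} (hZ : PD Z) :
    ∀ {a : V3 → ℝ}, Zs d Z a → (supp Z a).Nonempty → d + 2 ≤ (supp Z a).card := by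
  classical
  induction d with
  | zero =>
    intro a h ⟨z, hz⟩
    obtain ⟨w, hw, hne⟩ := h.two_le hZ hz
    exact one_lt_card.2 ⟨w, hw, z, hz, hne⟩
  | succ d ih =>
    intro a h ⟨z, hz⟩
    obtain ⟨w, hw, hne⟩ := h.two_le hZ hz
    obtain ⟨l, h1, h2⟩ := sep_line (hZ.2 z (mem_supp.1 hz).1 w (mem_supp.1 hw).1 hne.symm)
    have h3 := ih ((add_comm 1 d ▸ h : Zs (1 + d) Z a).mul (lin_hom l))
    rw [supp_mul_lin] at h3
    have h4 := h3 ⟨w, mem_sdiff.2 ⟨hw, fun e => h2 (by simpa using (mem_zer.1 e).2)⟩⟩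
    have h5 : 0 < (zer (supp Z a) (lin l)).card :=
      card_pos.2 ⟨z, mem_zer.2 ⟨hz, by simpa using h1⟩⟩
    rw [card_sdiff_of_subset (zer_subset _ _)] at h4
    omega

theorem Zs.col_or {d : ℕ} {Z : Finset V3} (hZ : PD Z) :
    ∀ {a : V3 → ℝ}, Zs d Z a → Col (supp Z a) ∨ 2 * d + 2 ≤ (supp Z a).card := by
  classical
  induction d with
  | zero =>
    intro a h
    rcases (supp Z a).eq_empty_or_nonempty with e | e
    · exact Or.inl ⟨fun _ => 1, fun e => by simpa using congrFun e 0, by simp [e]⟩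
    · exact Or.inr (h.card_supp hZ e)
  | succ d ih =>
    intro a h
    by_cases hc : Col (supp Z a)
    · exact Or.inl hc
    right
    set Y := supp Z a with hY
    have hYZ : Y ⊆ Z := supp_subset Z a
    have hne : Y.offDiag.Nonempty := by
      rcases Y.eq_empty_or_nonempty with e | ⟨z, hz⟩
      · exact absurd ⟨fun _ => 1, fun e => by simpa using congrFun e 0, by simp [e]⟩ hc
      · obtain ⟨w, hw, hne⟩ := h.two_le hZ hz
        exact ⟨(w, z), mem_offDiag.2 ⟨hw, hz, hne⟩⟩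
    obtain ⟨⟨p, q⟩, hpq, hmax⟩ := exists_max_image Y.offDiag
      (fun t => (zer Y (lin (t.1 ⨯₃ t.2))).card) hne
    obtain ⟨hp, hq, hne'⟩ := mem_offDiag.1 hpq
    simp only at hp hq hne' hmax
    have hl : p ⨯₃ q ≠ 0 := hZ.2 p (hYZ hp) q (hYZ hq) hne'
    have h2 : 2 ≤ (zer Y (lin (p ⨯₃ q))).card :=
      one_lt_card.2 ⟨p, mem_zer.2 ⟨hp, by rw [eval_lin, dotProduct_comm, dot_self_cross]⟩, q,
        mem_zer.2 ⟨hq, by rw [eval_lin, dotProduct_comm, dot_cross_self]⟩, hne'⟩
    have hm := (add_comm 1 d ▸ h : Zs (1 + d) Z a).mul (lin_hom (p ⨯₃ q))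
    have h3 := ih hm
    have h4 := hm.card_supp hZ
    rw [supp_mul_lin, ← hY] at h3 h4
    have hne2 : (Y \ zer Y (lin (p ⨯₃ q))).Nonempty := by
      by_contra hn
      rw [not_nonempty_iff_eq_empty, sdiff_eq_empty_iff_subset] at hn
      exact hc ⟨_, hl, fun w hw => by simpa using (mem_zer.1 (hn hw)).2⟩
    have h5 := h4 hne2
    have hcard := card_sdiff_add_card_eq_card (zer_subset Y (lin (p ⨯₃ q)))
    rcases h3 with ⟨m, hm0, hm1⟩ | h3
    · obtain ⟨u, hu, v, hv, huv⟩ := one_lt_card.1 (show 1 < (Y \ zer Y (lin (p ⨯₃ q))).card by omega)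
      have huY := (mem_sdiff.1 hu).1
      have hvY := (mem_sdiff.1 hv).1
      have huv' : u ⨯₃ v ≠ 0 := hZ.2 u (hYZ huY) v (hYZ hvY) huv
      have h6 := hmax (u, v) (mem_offDiag.2 ⟨huY, hvY, huv⟩)
      have h7 : Y \ zer Y (lin (p ⨯₃ q)) ⊆ zer Y (lin (u ⨯₃ v)) := fun w hw =>
        mem_zer.2 ⟨(mem_sdiff.1 hw).1, by
          rw [eval_lin]
          exact line_unique huv' hm0 (hm1 u hu) (hm1 v hv)
            (by rw [dotProduct_comm, dot_self_cross]) (by rw [dotProduct_comm, dot_cross_self])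
            (hm1 w hw)⟩
      have h8 := card_le_card h7
      simp only at h6
      omega
    · omega

theorem Zs.onC_supp {e : ℕ} {Z : Finset V3} (hZ : PD Z) {a : V3 → ℝ} (h : Zs (e + 1) Z a)
    (hc : ¬Col (supp Z a)) (hcard : (supp Z a).card ≤ (e + 2).choose 2 + 2) :
    OnC e (supp Z a) := by
  classical
  by_contra hn
  set Y := supp Z a with hY
  have hYZ : Y ⊆ Z := supp_subset Z a
  obtain ⟨p, hp⟩ : Y.Nonempty := by
    rcases Y.eq_empty_or_nonempty with e | e
    · exact absurd ⟨fun _ => 1, fun e => by simpa using congrFun e 0, by simp [e]⟩ hc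
    · exact e
  obtain ⟨q, hq, hqp⟩ := h.two_le hZ hp
  refine hc ⟨p ⨯₃ q, hZ.2 p (hYZ hp) q (hYZ hq) hqp.symm, fun r hr => ?_⟩
  by_cases hrp : r = p
  · rw [hrp, dotProduct_comm, dot_self_cross]
  by_cases hrq : r = q
  · rw [hrq, dotProduct_comm, dot_cross_self]
  have hsub : ({p, q, r} : Finset V3) ⊆ Y := by
    intro w hw
    simp only [mem_insert, mem_singleton] at hw
    rcases hw with rfl | rfl | rfl <;> assumption
  have hc3 : ({p, q, r} : Finset V3).card = 3 :=
    card_eq_three.2 ⟨p, q, r, hqp.symm, Ne.symm hrp, Ne.symm hrq, rfl⟩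
  obtain ⟨F, f0, hF, h2⟩ := onC_of_card_lt (d := e) (A := Y \ {p, q, r}) (by
    rw [card_sdiff_of_subset hsub, hc3]
    have := Nat.choose_pos (show 2 ≤ e + 2 by omega)
    omega)
  have hm := h.mul hF
  have hs : supp Z (fun z => a z * eval z F) ⊆ {p, q, r} := by
    intro w hw
    obtain ⟨hw1, hw2⟩ := mem_supp.1 hw
    by_contra hw3
    exact hw2 (by
      by_cases h4 : a w = 0
      · simp [h4]
      · simp [h2 w (mem_sdiff.2 ⟨mem_supp.2 ⟨hw1, h4⟩, hw3⟩)])
  have hne : (supp Z fun z => a z * eval z F).Nonempty := by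
    by_contra hn2
    rw [not_nonempty_iff_eq_empty] at hn2
    refine hn ⟨F, f0, hF, fun w hw => ?_⟩
    by_contra h5
    have : w ∈ supp Z fun z => a z * eval z F :=
      mem_supp.2 ⟨hYZ hw, mul_ne_zero (mem_supp.1 hw).2 h5⟩
    rw [hn2] at this
    simp at this
  have heq := eq_of_subset_of_card_le hs (by rw [hc3]; exact hm.card_supp hZ hne)
  have hr2 : r ∈ supp Z fun z => a z * eval z F := by rw [heq]; simp
  have h6 := hm.toSupp (lin (p ⨯₃ q)) (lin_hom _)
  rw [sum_eq_single r (fun w hw hne => by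
    rw [heq] at hw
    simp only [mem_insert, mem_singleton] at hw
    rcases hw with rfl | rfl | rfl
    · rw [eval_lin, dotProduct_comm, dot_self_cross, mul_zero]
    · rw [eval_lin, dotProduct_comm, dot_cross_self, mul_zero]
    · exact absurd rfl hne) (fun hn => absurd hr2 hn)] at h6
  simpa using (mul_eq_zero.1 h6).resolve_left (mem_supp.1 hr2).2

end Pool.Agent.P.MP_ed12bb_co
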