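import Pool.Agent.P.MP_ed12bb_co.Cubic

/-!
The case of a line with many points, and the theorem for cubics.
-/

namespace Pool.Agent.P.MP_ed12bb_co

open Finset Matrix MvPolynomial Module

theorem cross_dot_swap {x y u : V3} (h : (x ⨯₃ y) ⬝ᵥ u ≠ 0) : (y ⨯₃ x) ⬝ᵥ u ≠ 0 := by
  rw [← cross_anticomm, neg_dotProduct]
  exact neg_ne_zero.2 h

/-- four points in general position, two of which span an ordinary line -/
theorem exists_four {R : Finset V3} (hP : PD R) (hR : ¬OnC 2 R) :
    ∃ T ⊆ R, T.card = 4 ∧ (∀ m : V3, m ≠ 0 → (zer T (lin m)).card ≤ 2) ∧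
      ∃ L : Finset V3, L.card ≤ 5 ∧ (∀ m ∈ L, m ≠ 0 ∧ ∃ t ∈ R, m ⬝ᵥ t = 0) ∧
        ∀ x ∈ T, ∀ y ∈ T, x ≠ y → x ⨯₃ y ∈ L ∨ y ⨯₃ x ∈ L ∨
          ∀ u ∈ R, u ∉ T → (x ⨯₃ y) ⬝ᵥ u ≠ 0 := by
  classical
  obtain ⟨m, m0, hm⟩ := exists_ordinary hP fun e => hR (e.add 1)
  obtain ⟨a, b, hab, e⟩ := card_eq_two.1 hm
  obtain ⟨ha, ha0⟩ := mem_zer.1 (show a ∈ zer R (lin m) by simp [e])
  obtain ⟨hb, hb0⟩ := mem_zer.1 (show b ∈ zer R (lin m) by simp [e])
  rw [eval_lin] at ha0 hb0
  have ord : ∀ u ∈ R, u ≠ a → u ≠ b → (a ⨯₃ b) ⬝ᵥ u ≠ 0 := fun u hu h1 h2 h3 => by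
    have : u ∈ zer R (lin m) := mem_zer.2 ⟨hu, by
      simpa using same_line hP (hP.2 a ha b hb hab) ha hb hab (cross_dot1 a b) (cross_dot2 a b)
        ha0 hb0 h3⟩
    simp [e, h1, h2] at this
  obtain ⟨c, hc, hcn⟩ := exists_mem_notMem_of_card_lt_card (s := {a, b}) (t := R)
    (lt_of_lt_of_le (by rw [card_pair hab]; decide) (card_ge_of_not_onC hR))
  simp only [mem_insert, mem_singleton, not_or] at hcn
  have hac := hP.2 a ha c hc (Ne.symm hcn.1)
  have hbc := hP.2 b hb c hc (Ne.symm hcn.2)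
  obtain ⟨d, hd, hd0⟩ : ∃ d ∈ R, eval d (lin (a ⨯₃ c) * lin (b ⨯₃ c)) ≠ 0 := by
    by_contra h
    push Not at h
    exact hR ⟨_, mul_ne_zero (lin_ne_zero hac) (lin_ne_zero hbc), (lin_hom _).mul (lin_hom _), h⟩
  simp only [map_mul, eval_lin, mul_ne_zero_iff] at hd0
  have hda : d ≠ a := fun e => hd0.1 (e ▸ cross_dot1 _ _)
  have hdb : d ≠ b := fun e => hd0.2 (e ▸ cross_dot1 _ _)
  have hdc : d ≠ c := fun e => hd0.1 (e ▸ cross_dot2 _ _)
  have s3 : ({c, a, b} : Finset V3) ⊆ R := by simp [insert_subset_iff, ha, hb, hc]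
  refine ⟨{d, c, a, b}, insert_subset hd s3, ?_, gen_insert (hP.mono s3) (gen_insert
    (hP.mono ((subset_insert _ _).trans s3)) (fun m _ =>
      (card_le_card (zer_subset _ _)).trans card_le_two) fun x hx y hy hxy => ?_)
    fun x hx y hy hxy => ?_, {a ⨯₃ c, b ⨯₃ c, a ⨯₃ d, b ⨯₃ d, c ⨯₃ d}, card_le_five, fun m hm => ?_,
    fun x hx y hy hxy => ?_⟩
  · rw [card_insert_of_notMem (by simp [hda, hdb, hdc]), card_insert_of_notMem (by simp [hcn]),
      card_pair hab]
  · simp only [mem_insert, mem_singleton] at hx hy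
    rcases hx with rfl | rfl <;> rcases hy with rfl | rfl
    exacts [absurd rfl hxy, ord c hc hcn.1 hcn.2, cross_dot_swap (ord c hc hcn.1 hcn.2),
      absurd rfl hxy]
  · simp only [mem_insert, mem_singleton] at hx hy
    rcases hx with rfl | rfl | rfl <;> rcases hy with rfl | rfl | rfl
    exacts [absurd rfl hxy, cross_dot_swap hd0.1, cross_dot_swap hd0.2, hd0.1, absurd rfl hxy,
      ord d hd hda hdb, hd0.2, cross_dot_swap (ord d hd hda hdb), absurd rfl hxy]
  · simp only [mem_insert, mem_singleton] at hm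
    rcases hm with rfl | rfl | rfl | rfl | rfl
    exacts [⟨hac, a, ha, cross_dot1 _ _⟩, ⟨hbc, b, hb, cross_dot1 _ _⟩,
      ⟨hP.2 a ha d hd hda.symm, a, ha, cross_dot1 _ _⟩,
      ⟨hP.2 b hb d hd hdb.symm, b, hb, cross_dot1 _ _⟩,
      ⟨hP.2 c hc d hd hdc.symm, c, hc, cross_dot1 _ _⟩]
  · have o2 : ∀ u ∈ R, u ∉ ({d, c, a, b} : Finset V3) → (a ⨯₃ b) ⬝ᵥ u ≠ 0 := fun u hu h => by
      simp only [mem_insert, mem_singleton, not_or] at h
      exact ord u hu h.2.2.1 h.2.2.2
    simp only [mem_insert, mem_singleton] at hx hy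
    rcases hx with rfl | rfl | rfl | rfl <;> rcases hy with rfl | rfl | rfl | rfl <;>
      first
      | exact absurd rfl hxy
      | exact Or.inr (Or.inr o2)
      | exact Or.inr (Or.inr fun u hu h => cross_dot_swap (o2 u hu h))
      | simp

theorem case_line {S : Finset V3} (hS : PD S) (hn3 : ¬OnC 3 S) {l : V3} (l0 : l ≠ 0)
    (hc : 10 ≤ (zer S (lin l)).card) : Rz 3 S 9 := by
  classical
  set A := zer S (lin l) with hA
  set R := S \ A with hRd
  have hAS : A ⊆ S := zer_subset _ _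
  have hRS : R ⊆ S := sdiff_subset
  have onA : ∀ z ∈ A, eval z (lin l) = 0 := fun z hz => (mem_zer.1 hz).2
  have offR : ∀ z ∈ R, eval z (lin l) ≠ 0 := fun z hz e =>
    (mem_sdiff.1 hz).2 (mem_zer.2 ⟨hRS hz, e⟩)
  have dis : ∀ {B T : Finset V3}, B ⊆ A → T ⊆ R → Disjoint B T := fun hB hT =>
    disjoint_left.2 fun z h1 h2 => (mem_sdiff.1 (hT h2)).2 (hB h1)
  have hR : ¬OnC 2 R := not_onC_sdiff (e := 1) hn3 (lin_ne_zero l0) (lin_hom l)
  obtain ⟨T6, h6R, h6i, h6⟩ := exists_ind hR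
  replace h6 : T6.card = 6 := h6
  have split : ∀ {d : ℕ} {B T : Finset V3}, B ⊆ A → T ⊆ R → B.card ≤ d + 2 → Ind d T →
      Ind (1 + d) (B ∪ T) := fun hB hT h1 h2 =>
    ind_split (lin_hom l) (ind_of_card_le (hS.mono (hB.trans hAS)) (by omega)) h2
      (fun z hz => onA z (hB hz)) fun z hz => offR z (hT hz)
  have dr : ∀ Y Av Z : Finset V3, T6 ⊆ Y → Av ⊆ A → Z ⊆ A → Z ⊆ Y → Disjoint Z Av →
      Z.card ≤ 3 → 4 ≤ Z.card + Av.card →
      ∃ a ∈ Av, finrank ℝ (van 3 (insert a Y)) ≤ finrank ℝ (van 3 Y) - 1 := by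
    intro Y Av Z h1 h2 h3 h4 h5 h7 h8
    refine drop (card_pos.1 (by omega)) fun F f0 hF h => ?_
    by_contra hcon
    push Not at hcon
    obtain ⟨B, hB, hB4⟩ := exists_subset_card_eq (s := Z ∪ Av) (n := 4)
      (by rw [card_union_of_disjoint h5]; exact h8)
    have hBA := hB.trans (union_subset h3 h2)
    refine (onC_iff_not_ind (d := 3) ?_).1 ⟨F, f0, hF, fun z hz => ?_⟩ (split hBA h6R hB4.le h6i)
    · rw [card_union_of_disjoint (dis hBA h6R), hB4, h6]
      rfl
    · rcases mem_union.1 hz with hz | hz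
      · exact (mem_union.1 (hB hz)).elim (fun e => h z (h4 e)) (hcon z)
      · exact h z (h1 hz)
  by_cases hβ : 3 ≤ finrank ℝ (van 3 R)
  · obtain ⟨a, ha, r1⟩ := dr R A ∅ h6R subset_rfl (by simp) (by simp) (by simp) (by simp)
      (by omega)
    obtain ⟨b, hb, r2⟩ := dr (insert a R) (A.erase a) ∅ (h6R.trans (subset_insert _ _))
      (erase_subset _ _) (by simp) (by simp) (by simp) (by simp)
      (by rw [card_erase_of_mem ha]; omega)
    obtain ⟨c, hc', r3⟩ := dr (insert b (insert a R)) ((A.erase a).erase b) ∅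
      (h6R.trans ((subset_insert _ _).trans (subset_insert _ _)))
      ((erase_subset _ _).trans (erase_subset _ _)) (by simp) (by simp) (by simp) (by simp)
      (by rw [card_erase_of_mem hb, card_erase_of_mem ha]; omega)
    simp only [mem_erase] at hb hc'
    have hB : ({c, b, a} : Finset V3) ⊆ A := by simp [insert_subset_iff, ha, hb.2, hc'.2.2]
    have hB3 : ({c, b, a} : Finset V3).card = 3 :=
      card_eq_three.2 ⟨c, b, a, hc'.1, hc'.2.1, hb.1, rfl⟩
    have h9 : ({c, b, a} ∪ T6).card = 9 := by rw [card_union_of_disjoint (dis hB h6R), hB3, h6]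
    have hsub := union_subset (hB.trans hAS) (h6R.trans hRS)
    refine h9 ▸ rz_of_flat hsub (exists_mem_notMem_of_card_lt_card
      (lt_of_lt_of_le (by rw [h9]; decide) (card_ge_of_not_onC hn3))) fun q hq hqn => ?_
    by_cases hqA : q ∈ A
    · refine Ind.not_inCl ?_ hqn
      rw [← insert_union]
      exact split (insert_subset hqA hB) h6R ((card_insert_le _ _).trans (by omega)) h6i
    · intro hin
      have hqR : q ∈ R := mem_sdiff.2 ⟨hq, hqA⟩
      have hq6 : q ∉ T6 := fun e => hqn (mem_union_right _ e)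
      have h7 : Ind 3 (insert q T6) := by
        refine ind_small (hS.mono ((insert_subset hqR h6R).trans hRS))
          ((card_insert_le _ _).trans (by omega)) fun m m0 => ?_
        refine (card_zer_insert _ _ _).trans (Nat.add_le_add_right ?_ 1)
        by_contra h
        have h1 := card_sdiff_add_card_eq_card (zer_subset T6 (lin m))
        exact not_onC_sdiff (e := 1) (d := 1) (fun e => (onC_iff_not_ind h6).1 e h6i)
          (lin_ne_zero m0) (lin_hom m) (onC_of_card_lt (by change _ < 3; omega))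
      have h8 := h7.finrank_van
      rw [card_insert_of_notMem hq6, h6] at h8
      change _ = 10 at h8
      have hle : van 3 R ≤ van 3 (insert q T6) := fun F hF =>
        mem_van.2 fun z hz => mem_van.1 hF z (insert_subset hqR h6R hz)
      have heq := Submodule.eq_of_le_of_finrank_le hle (by omega)
      obtain ⟨F, f0, hF, h1⟩ := onC_of_card_lt (d := 3) (A := {c, b, a} ∪ T6) (by rw [h9]; decide)
      have h2 : (⟨F, hF⟩ : Hs 3) ∈ van 3 R := heq ▸ mem_van.2 fun z hz => by
        rcases mem_insert.1 hz with rfl | hz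
        · exact hin F hF h1
        · exact h1 z (mem_union_right _ hz)
      have h3 := onC_iff.1 (show OnC 3 (insert c (insert b (insert a R))) from
        ⟨F, f0, hF, fun z hz => by
          simp only [mem_insert] at hz
          rcases hz with rfl | rfl | rfl | hz
          exacts [h1 _ (by simp), h1 _ (by simp), h1 _ (by simp), mem_van.1 h2 z hz]⟩)
      rw [heq] at r1
      omega
  obtain ⟨T, hTR, hT4, hT2, L, hL5, hL, hTL⟩ := exists_four (hS.mono hRS) hR
  have one : ∀ m : V3, m ≠ 0 → ∀ t ∈ R, m ⬝ᵥ t = 0 → ∀ B ⊆ A, (zer B (lin m)).card ≤ 1 :=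
    fun m m0 t ht h B hB => card_le_one.2 fun x hx y hy => by
      by_contra hne
      obtain ⟨x1, x2⟩ := mem_zer.1 hx
      obtain ⟨y1, y2⟩ := mem_zer.1 hy
      have x3 := onA x (hB x1)
      have y3 := onA y (hB y1)
      rw [eval_lin] at x2 y2 x3 y3
      exact offR t ht (by simpa using same_line hS m0 (hAS (hB x1)) (hAS (hB y1)) hne x2 y2 x3 y3 h)
  obtain ⟨Av, hAv, hAv5, hAvL⟩ : ∃ Av ⊆ A, 5 ≤ Av.card ∧ ∀ a ∈ Av, ∀ m ∈ L, m ⬝ᵥ a ≠ 0 := by
    refine ⟨A \ L.biUnion fun m => zer A (lin m), sdiff_subset, ?_, fun a ha m hm e => ?_⟩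
    · have h1 : (L.biUnion fun m => zer A (lin m)).card ≤ L.card * 1 :=
        card_biUnion_le_card_mul _ _ _ fun m hm => by
          obtain ⟨m0, t, ht, h⟩ := hL m hm
          exact one m m0 t ht h A subset_rfl
      have := le_card_sdiff (L.biUnion fun m => zer A (lin m)) A
      omega
    · obtain ⟨h1, h2⟩ := mem_sdiff.1 ha
      exact h2 (mem_biUnion.2 ⟨m, hm, mem_zer.2 ⟨h1, by simpa using e⟩⟩)
  have five : ∀ p ∈ S, Ind 2 (insert p T) := fun p hp =>
    ind_small (hS.mono (insert_subset hp (hTR.trans hRS))) ((card_insert_le _ _).trans (by omega))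
      fun m m0 => (card_zer_insert _ _ _).trans (Nat.add_le_add_right (hT2 m m0) 1)
  have six : ∀ B ⊆ A, B.card = 3 → ∀ t ∈ T, ¬OnC 2 (B ∪ T.erase t) := fun B hB h3 t ht h => by
    have h1 := (erase_subset t T).trans hTR
    have h2 : (T.erase t).card = 3 := by rw [card_erase_of_mem ht, hT4]
    refine (onC_iff_not_ind ?_).1 h (split hB h1 h3.le (ind_small (hS.mono (h1.trans hRS)) h2.le
      fun m m0 => (card_zer_mono (erase_subset t T) _).trans (hT2 m m0)))
    rw [card_union_of_disjoint (dis hB h1), h3, h2]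
    rfl
  let par : V3 → Finset V3 := fun a => A.filter fun b => b ≠ a ∧ OnC 2 (insert b (insert a T))
  have hpar : ∀ a ∈ A, (par a).card ≤ 1 := fun a ha => card_le_one.2 fun x hx y hy => by
    by_contra hne
    obtain ⟨x1, x2, x3⟩ := mem_filter.1 hx
    obtain ⟨y1, y2, y3⟩ := mem_filter.1 hy
    have nT : ∀ z ∈ A, z ∉ T := fun z hz e => (mem_sdiff.1 (hTR e)).2 hz
    have h5 : (insert a T).card = 5 := by rw [card_insert_of_notMem (nT a ha), hT4]
    obtain ⟨G, g0, hG, h1⟩ := onC_of_card_lt (d := 2) (A := insert a T) (by rw [h5]; decide)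
    have ex := onC_inCl (five a (hAS ha)) (by rw [h5]; rfl) (by simp [x2, nT x x1]) x3 G hG h1
    have ey := onC_inCl (five a (hAS ha)) (by rw [h5]; rfl) (by simp [y2, nT y y1]) y3 G hG h1
    obtain ⟨t, ht⟩ := card_pos.1 (show 0 < T.card by omega)
    refine six {x, y, a} (by simp [insert_subset_iff, x1, y1, ha])
      (card_eq_three.2 ⟨x, y, a, hne, x2, y2, rfl⟩) t ht ⟨G, g0, hG, fun z hz => ?_⟩
    simp only [mem_union, mem_insert, mem_singleton] at hz
    rcases hz with (rfl | rfl | rfl) | hz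
    exacts [ex, ey, h1 _ (by simp), h1 _ (mem_insert_of_mem (mem_of_mem_erase hz))]
  obtain ⟨a, ha, r1⟩ := dr R Av ∅ h6R hAv (by simp) (by simp) (by simp) (by simp) (by omega)
  have c1 := card_insert_le a (par a)
  have c2 := hpar a (hAv ha)
  obtain ⟨b, hb, r2⟩ := dr (insert a R) (Av \ insert a (par a)) {a} (h6R.trans (subset_insert _ _))
    (sdiff_subset.trans hAv) (by simpa using hAv ha) (by simp) (by simp) (by simp) (by
      have := le_card_sdiff (insert a (par a)) Av
      rw [card_singleton]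
      omega)
  obtain ⟨hb, hbn⟩ := mem_sdiff.1 hb
  obtain ⟨c, hc', hcn⟩ := exists_mem_notMem_of_card_lt_card
    (s := insert a (par a) ∪ insert b (par b)) (t := Av) (by
      have := card_union_le (insert a (par a)) (insert b (par b))
      have := card_insert_le b (par b)
      have := hpar b (hAv hb)
      omega)
  simp only [par, mem_union, mem_insert, mem_filter, not_or, not_and] at hbn hcn
  have nb := hbn.2 (hAv hb) hbn.1
  have nc1 := hcn.1.2 (hAv hc') hcn.1.1
  have nc2 := hcn.2.2 (hAv hc') hcn.2.1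
  have hB : ({c, b, a} : Finset V3) ⊆ Av := by simp [insert_subset_iff, ha, hb, hc']
  have hB3 : ({c, b, a} : Finset V3).card = 3 :=
    card_eq_three.2 ⟨c, b, a, hcn.2.1, hcn.1.1, hbn.1, rfl⟩
  have hBA := hB.trans hAv
  have hI : ({c, b, a} ∪ T).card = 7 := by rw [card_union_of_disjoint (dis hBA hTR), hB3, hT4]
  have hsix : NoSix ({c, b, a} ∪ T) := by
    intro z hz h
    rcases mem_union.1 hz with hz | hz
    · have key : ∀ u v, u ∈ ({c, b, a} : Finset V3) → v ∈ ({c, b, a} : Finset V3) → u ≠ z →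
          v ≠ z → OnC 2 (insert u (insert v T)) := fun u v hu hv h1 h2 =>
        h.mono (insert_subset (mem_erase.2 ⟨h1, mem_union_left _ hu⟩) (insert_subset
          (mem_erase.2 ⟨h2, mem_union_left _ hv⟩) fun w hw => mem_erase.2
            ⟨fun e => disjoint_left.1 (dis hBA hTR) hz (e ▸ hw), mem_union_right _ hw⟩))
      simp only [mem_insert, mem_singleton] at hz
      rcases hz with rfl | rfl | rfl
      exacts [nb (key _ _ (by simp) (by simp) (Ne.symm hcn.2.1) (Ne.symm hcn.1.1)),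
        nc1 (key _ _ (by simp) (by simp) hcn.2.1 (Ne.symm hbn.1)),
        nc2 (key _ _ (by simp) (by simp) hcn.1.1 hbn.1)]
    · refine six _ hBA hB3 z hz (h.mono (union_subset (fun w hw => mem_erase.2
        ⟨fun e => disjoint_left.1 (dis hBA hTR) hw (e ▸ hz), mem_union_left _ hw⟩)
        (erase_subset_erase z subset_union_right)))
  have n5 : ¬OnC 3 (R ∪ ({c, b, a} ∪ T)) := fun e => by
    have := onC_iff.1 (e.mono (B := insert b (insert a R)) (insert_subset (by simp)
      (insert_subset (by simp) subset_union_left)))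
    omega
  generalize ({c, b, a} : Finset V3) = B at *
  have hIS : B ∪ T ⊆ S := union_subset (hBA.trans hAS) (hTR.trans hRS)
  obtain ⟨h1, h2⟩ := base7 hS hIS hI (hsix.not_onC hI) fun p _ m m0 =>
    (card_zer_insert _ _ _).trans (Nat.add_le_add_right (hsix.line (hS.mono hIS) hI m m0) 1)
  have n3 : ∀ p ∈ S, p ∉ B ∪ T → p ∉ A → ∀ q ∈ A, q ∉ B ∪ T → ¬InCl 3 (insert q (B ∪ T)) p := by
    intro p hp hpI hpA q hq _ hin
    refine (five p hp).not_inCl (fun e => hpI (mem_union_right _ e)) fun G hG h => ?_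
    have := hin (lin l * G) ((lin_hom l).mul hG) fun z hz => by
      rw [map_mul]
      rcases mem_insert.1 hz with rfl | hz
      · rw [onA _ hq, zero_mul]
      · rcases mem_union.1 hz with hz | hz
        · rw [onA _ (hBA hz), zero_mul]
        · rw [h z hz, mul_zero]
    rw [map_mul] at this
    exact (mul_eq_zero.1 this).resolve_left (offR p (mem_sdiff.2 ⟨hp, hpA⟩))
  obtain ⟨e, he, hne⟩ := exists_rel hI
  have := net (A := A) hIS (by rw [hI]; rfl) h1 h2 ?_ n3 ?_ n5
  · rwa [hI] at this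
  · intro p hp hpI hpA q hq hqI r hr hrI hqp hrp hqr cq cr
    have hqA : q ∉ A := fun h => n3 p hp hpI hpA q h hqI (cq.exchange (h2 q hq hqI))
    have hrA : r ∉ A := fun h => n3 p hp hpI hpA r h hrI (cr.exchange (h2 r hr hrI))
    have two : ∀ m u : V3, m ≠ 0 → 3 ≤ (zer (B ∪ T) (lin m)).card → u ∈ S → u ∉ A → u ∉ B ∪ T →
        m ⬝ᵥ u ≠ 0 := by
      intro m u m0 h3 hu huA huI h0
      have huR : u ∈ R := mem_sdiff.2 ⟨hu, huA⟩
      have k1 := one m m0 u huR h0 B hBA
      have k2 := hT2 m m0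
      have k3 := card_zer_union B T (lin m)
      obtain ⟨w, hw⟩ := card_pos.1 (show 0 < (zer B (lin m)).card by omega)
      obtain ⟨x, hx, y, hy, hxy⟩ := one_lt_card.1 (show 1 < (zer T (lin m)).card by omega)
      obtain ⟨w1, w2⟩ := mem_zer.1 hw
      obtain ⟨x1, x2⟩ := mem_zer.1 hx
      obtain ⟨y1, y2⟩ := mem_zer.1 hy
      rw [eval_lin] at w2 x2 y2
      have k4 : ∀ z, m ⬝ᵥ z = 0 → (x ⨯₃ y) ⬝ᵥ z = 0 := fun z =>
        same_line hS m0 (hRS (hTR x1)) (hRS (hTR y1)) hxy x2 y2 (cross_dot1 _ _) (cross_dot2 _ _)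
      rcases hTL x x1 y y1 hxy with h | h | h
      · exact hAvL w (hB w1) _ h (k4 w w2)
      · exact cross_dot_swap (hAvL w (hB w1) _ h) (k4 w w2)
      · exact h u huR (fun e => huI (mem_union_right _ e)) (k4 u h0)
    rcases fibre hS hIS hI (hsix.not_onC hI) he hne hp hq hr hqI hrI hqp hrp hqr (h2 q hq hqI)
      (h2 r hr hrI) cq cr with ⟨m, m0, h3, h4 | h4 | h4⟩ | ⟨m, m0, h3, -, -, -, h4⟩ |
      ⟨Q, q0, hQ, -, -, -, h4⟩
    · exact two m p m0 h3 hp hpA hpI h4.1
    · exact two m p m0 h3 hp hpA hpI h4.1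
    · exact two m q m0 h3 hq hqA hqI h4.1
    · obtain ⟨z, hz⟩ := card_pos.1 (show 0 < (zer (B ∪ T) (lin m)).card by omega)
      obtain ⟨z1, z2⟩ := mem_zer.1 hz
      exact hsix.full hI he hne z z1 (h4 z z1 (by simpa using z2))
    · exact hsix.not_onC hI ⟨Q, q0, hQ, fun z hz =>
        h4 z (mem_supp.2 ⟨hz, hsix.full hI he hne z hz⟩)⟩
  · intro q hq hqI r hr
    have hK : insert q B ⊆ A := insert_subset hq hBA
    have h4 : (insert q B).card = 4 := by
      rw [card_insert_of_notMem fun e => hqI (mem_union_left _ e), hB3]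
    refine InCl.mono ?_ (insert_subset_insert q subset_union_left)
    by_cases hrK : r ∈ insert q B
    · exact inCl_mem hrK
    refine inCl_of_not_ind (ind_of_card_le (hS.mono (hK.trans hAS)) h4.le) fun h => ?_
    have := (ind_split (e := 1) (d := 2) (lin_hom l) h h6i (fun z hz => onA z (insert_subset hr hK hz))
      fun z hz => offR z (h6R hz)).card_le
    rw [card_union_of_disjoint (dis (insert_subset hr hK) h6R), card_insert_of_notMem hrK, h4,
      h6] at this
    exact absurd this (by decide)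

theorem cubic {S : Finset V3} (hS : PD S) (hn3 : ¬OnC 3 S) : Rz 3 S 9 := by
  by_contra hno
  have hl : ∀ l : V3, l ≠ 0 → (zer S (lin l)).card ≤ 4 := fun l l0 => by
    by_contra h
    by_cases h1 : 10 ≤ (zer S (lin l)).card
    · exact hno (case_line hS hn3 l0 h1)
    · have := rz_mul (lin_ne_zero l0) (lin_hom l) (rz_lines (d := 2) (hS.mono sdiff_subset)
        (not_onC_sdiff (e := 1) hn3 (lin_ne_zero l0) (lin_hom l)) (9 - (zer S (lin l)).card)
        (by omega))
      exact hno (by rwa [Nat.add_sub_cancel' (by omega)] at this)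
  refine hno (case_none hS hn3 hl fun Q q0 hQ => ?_)
  by_contra h
  by_cases h1 : 10 ≤ (zer S Q).card
  · exact hno (case_conic hS hn3 hl q0 hQ h1)
  · have := rz_mul q0 hQ (rz_lines (d := 1) (hS.mono sdiff_subset)
      (not_onC_sdiff (e := 2) hn3 q0 hQ) (9 - (zer S Q).card) (by omega))
    exact hno (by rwa [Nat.add_sub_cancel' (by omega)] at this)

end Pool.Agent.P.MP_ed12bb_co
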