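import Pool.Agent.P.MP_ed12bb_co.Forms

/-!
Products of lines, the fibre lemma and the net of cubics through seven points.
-/

namespace Pool.Agent.P.MP_ed12bb_co

open Finset Matrix MvPolynomial Module

theorem OnC.add {e : ℕ} {A : Finset V3} (h : OnC e A) (d : ℕ) : OnC (e + d) A := by
  obtain ⟨F, h0, h1, h2⟩ := h
  refine ⟨F * (X 0) ^ d, mul_ne_zero h0 (pow_ne_zero _ (X_ne_zero _)),
    h1.mul (by simpa using (isHomogeneous_X ℝ (0 : Fin 3)).pow d), fun p hp => ?_⟩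
  rw [map_mul, h2 p hp, zero_mul]

theorem zer_lin (S : Finset V3) (l : V3) : zer S (lin l) = S.filter fun p => l ⬝ᵥ p = 0 := by
  ext p
  simp [mem_zer]

theorem card_ge_of_not_onC {d : ℕ} {S : Finset V3} (h : ¬OnC d S) : (d + 2).choose 2 ≤ S.card := by
  by_contra hc
  exact h (onC_of_card_lt (by omega))

theorem exists_off {S : Finset V3} (h : ¬OnC 1 S) (l : V3) (hl : l ≠ 0) :
    ∃ p ∈ S, l ⬝ᵥ p ≠ 0 := by
  by_contra hc
  push Not at hc
  exact h (Col.onC ⟨l, hl, hc⟩)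

theorem exists_ordinary {S : Finset V3} (hS : PD S) (h : ¬OnC 1 S) :
    ∃ l : V3, l ≠ 0 ∧ (zer S (lin l)).card = 2 := by
  obtain ⟨l, hl, hc⟩ := sg S id hS.1 hS.2 (exists_off h)
  exact ⟨l, hl, by rw [zer_lin]; exact hc⟩

theorem rz_one {S : Finset V3} (hS : PD S) (h : ¬OnC 1 S) {k : ℕ} (hk : k ≤ 2) : Rz 1 S k := by
  have h3 : 3 ≤ S.card := card_ge_of_not_onC h
  obtain ⟨p, hp, q, hq, hpq⟩ := one_lt_card.1 (show 1 < S.card by omega)
  interval_cases k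
  · exact rz_of_flat (empty_subset S) ⟨p, hp, by simp⟩ fun w hw _ hc => by
      have := hc (lin w) (lin_hom w) (by simp)
      rw [eval_lin] at this
      exact hS.1 w hw (dotProduct_self_eq_zero.1 this)
  · exact rz_of_flat (A := {p}) (by simpa) ⟨q, hq, by simpa using hpq.symm⟩ fun w hw hn hc => by
      obtain ⟨l, h1, h2⟩ := sep_line (hS.2 p hp w hw fun e => hn (by simp [e]))
      exact h2 (by simpa using hc (lin l) (lin_hom l) (by simpa))
  · obtain ⟨l, hl, hc⟩ := exists_ordinary hS h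
    exact ⟨lin l, lin_ne_zero hl, lin_hom l, hc⟩

theorem rz_lines {d : ℕ} : ∀ {S : Finset V3}, PD S → ¬OnC d S → ∀ k ≤ 2 * d, Rz d S k := by
  induction d with
  | zero =>
    intro S _ _ k hk
    refine ⟨1, one_ne_zero, isHomogeneous_one _ _, ?_⟩
    rw [show k = 0 by omega, card_eq_zero]
    ext p
    simp [mem_zer]
  | succ d ih =>
    intro S hS h k hk
    rw [add_comm] at h ⊢
    obtain ⟨F, h0, h1, h2⟩ := rz_one hS (fun e => h (e.add d)) (min_le_right k 2)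
    have := rz_mul h0 h1 (ih (hS.mono sdiff_subset) (not_onC_sdiff h h0 h1) (k - min k 2)
      (by omega))
    rwa [h2, show min k 2 + (k - min k 2) = k by omega] at this

theorem inCl_of_zs {d : ℕ} {S A : Finset V3} {a : V3 → ℝ} {q : V3} (h : Zs d S a) (hq : q ∈ S)
    (ha : a q ≠ 0) (h0 : ∀ z ∈ S, z ≠ q → z ∉ A → a z = 0) : InCl d A q := by
  intro F hF h1
  have := h F hF
  rw [sum_eq_single q (fun z hz hne => by
    by_cases hA : z ∈ A
    · rw [h1 z hA, mul_zero]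
    · rw [h0 z hz hne hA, zero_mul]) (fun hn => absurd hq hn)] at this
  exact (mul_eq_zero.1 this).resolve_left ha

theorem InCl.relS {d : ℕ} {S A : Finset V3} {q : V3} (h : InCl d A q) (hq : q ∉ A) (hA : A ⊆ S)
    (hqS : q ∈ S) : ∃ a : V3 → ℝ, Zs d S a ∧ a q = 1 ∧ ∀ z, z ≠ q → z ∉ A → a z = 0 := by
  obtain ⟨a, h1, h2, h3⟩ := h.rel hq
  exact ⟨a, h1.of_superset (insert_subset hqS hA) fun z _ hz => h3 z hz, h2,
    fun z h4 h5 => h3 z (by simp [h4, h5])⟩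

/-- relations of degree two on seven points not on a conic are proportional -/
theorem rel_unique {I : Finset V3} (hI : I.card = 7) (hn : ¬OnC 2 I) {c b : V3 → ℝ}
    (hc : Zs 2 I c) (hne : (supp I c).Nonempty) (hb : Zs 2 I b) :
    ∃ t : ℝ, ∀ z ∈ I, b z = t * c z := by
  classical
  obtain ⟨z0, hz0⟩ := hne
  obtain ⟨hz0I, hc0⟩ := mem_supp.1 hz0
  have h1 : InCl 2 (I.erase z0) z0 :=
    inCl_of_zs hc hz0I hc0 fun z hz hne hn => absurd (mem_erase.2 ⟨hne, hz⟩) hn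
  have h2 : Ind 2 (I.erase z0) := by
    by_contra h3
    obtain ⟨F, f0, hF, h4⟩ := (onC_iff_not_ind (by rw [card_erase_of_mem hz0I, hI]; rfl)).2 h3
    refine hn ⟨F, f0, hF, fun p hp => ?_⟩
    by_cases e : p = z0
    · rw [e]; exact h1 F hF h4
    · exact h4 p (mem_erase.2 ⟨e, hp⟩)
  have h3 := h2 _ ((hb.comb hc 1 (-(b z0 / c z0))).of_subset (erase_subset z0 I) fun z hz hn => by
    have : z = z0 := by
      by_contra e
      exact hn (mem_erase.2 ⟨e, hz⟩)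
    rw [this]
    field_simp
    ring)
  refine ⟨b z0 / c z0, fun z hz => ?_⟩
  by_cases e : z = z0
  · rw [e]; field_simp
  · have := h3 z (mem_erase.2 ⟨e, hz⟩)
    linarith

theorem card_zer_ge {S I B : Finset V3} (hS : PD S) {d : ℕ} {a : V3 → ℝ} (ha : Zs d S a)
    (hne : (supp S a).Nonempty) {l : V3} (h1 : ∀ z ∈ S, z ∉ I → z ∉ B → a z = 0)
    (h2 : ∀ z ∈ I, l ⬝ᵥ z ≠ 0 → a z = 0) : d + 2 ≤ (zer I (lin l)).card + B.card := by
  classical
  refine (ha.card_supp hS hne).trans ((card_le_card (t := zer I (lin l) ∪ B) fun z hz => ?_).trans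
    (card_union_le _ _))
  obtain ⟨hz1, hz2⟩ := mem_supp.1 hz
  by_cases hB : z ∈ B
  · exact mem_union_right _ hB
  · have hI : z ∈ I := by
      by_contra e
      exact hz2 (h1 z hz1 e hB)
    refine mem_union_left _ (mem_zer.2 ⟨hI, ?_⟩)
    rw [eval_lin]
    by_contra e
    exact hz2 (h2 z hI e)

theorem fibre {S I : Finset V3} (hS : PD S) (hIS : I ⊆ S) (hI : I.card = 7) (hn : ¬OnC 2 I)
    {c : V3 → ℝ} (hc : Zs 2 I c) (hne : (supp I c).Nonempty) {p q r : V3} (hp : p ∈ S)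
    (hq : q ∈ S) (hr : r ∈ S) (hqI : q ∉ I) (hrI : r ∉ I) (hqp : q ≠ p)
    (hrp : r ≠ p) (hqr : q ≠ r) (nq : ¬InCl 3 I q) (nr : ¬InCl 3 I r)
    (cq : InCl 3 (insert p I) q) (cr : InCl 3 (insert p I) r) :
    (∃ l : V3, l ≠ 0 ∧ 3 ≤ (zer I (lin l)).card ∧ ((l ⬝ᵥ p = 0 ∧ l ⬝ᵥ q = 0) ∨
      (l ⬝ᵥ p = 0 ∧ l ⬝ᵥ r = 0) ∨ (l ⬝ᵥ q = 0 ∧ l ⬝ᵥ r = 0))) ∨
    (∃ l : V3, l ≠ 0 ∧ 2 ≤ (zer I (lin l)).card ∧ l ⬝ᵥ p = 0 ∧ l ⬝ᵥ q = 0 ∧ l ⬝ᵥ r = 0 ∧
      ∀ z ∈ I, l ⬝ᵥ z = 0 → c z = 0) ∨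
    (∃ Q : Pol, Q ≠ 0 ∧ Q.IsHomogeneous 2 ∧ eval p Q = 0 ∧ eval q Q = 0 ∧ eval r Q = 0 ∧
      ∀ z ∈ supp I c, eval z Q = 0) := by
  classical
  have hpI : insert p I ⊆ S := insert_subset hp hIS
  obtain ⟨a, ha, aq, a0⟩ := cq.relS (by simp [hqp, hqI]) hpI hq
  obtain ⟨b, hb, br, b0⟩ := cr.relS (by simp [hrp, hrI]) hpI hr
  simp only [mem_insert, not_or] at a0 b0
  have ap : a p ≠ 0 := fun e => nq (inCl_of_zs ha hq (by simp [aq]) fun z _ h1 h2 => by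
    by_cases h3 : z = p
    · rw [h3, e]
    · exact a0 z h1 ⟨h3, h2⟩)
  have bp : b p ≠ 0 := fun e => nr (inCl_of_zs hb hr (by simp [br]) fun z _ h1 h2 => by
    by_cases h3 : z = p
    · rw [h3, e]
    · exact b0 z h1 ⟨h3, h2⟩)
  have ar : a r = 0 := a0 r hqr.symm ⟨hrp, hrI⟩
  have bq : b q = 0 := b0 q hqr ⟨hqp, hqI⟩
  -- a relation times a line through its two outside points is a multiple of c
  have mult : ∀ (e : V3 → ℝ) (u v l : V3), Zs 3 S e → (∀ z ∈ S, z ∉ I → z ∉ ({u, v} : Finset V3) →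
      e z = 0) → l ⬝ᵥ u = 0 → l ⬝ᵥ v = 0 → ∃ t : ℝ, ∀ z ∈ I, e z * l ⬝ᵥ z = t * c z := by
    intro e u v l he h0 hu hv
    have h1 := (he.mul (d := 2) (e := 1) (lin_hom l)).of_subset hIS fun z hz hzI => by
      by_cases h2 : z ∈ ({u, v} : Finset V3)
      · simp only [mem_insert, mem_singleton] at h2
        rcases h2 with rfl | rfl <;> simp [hu, hv]
      · simp [h0 z hz hzI h2]
    simpa using rel_unique hI hn hc hne h1
  have three : ∀ (e : V3 → ℝ) (u v l : V3), Zs 3 S e → (supp S e).Nonempty →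
      (∀ z ∈ S, z ∉ I → z ∉ ({u, v} : Finset V3) → e z = 0) →
      (∀ z ∈ I, e z * l ⬝ᵥ z = 0 * c z) → 3 ≤ (zer I (lin l)).card := by
    intro e u v l he hne' h0 h1
    have := card_zer_ge hS he hne' h0 (l := l) fun z hz h2 => by
      have := h1 z hz
      rw [zero_mul] at this
      exact (mul_eq_zero.1 this).resolve_right h2
    have h3 : ({u, v} : Finset V3).card ≤ 2 := card_le_two
    omega
  have sa : ∀ z ∈ S, z ∉ I → z ∉ ({p, q} : Finset V3) → a z = 0 := fun z _ h1 h2 => by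
    simp only [mem_insert, mem_singleton, not_or] at h2
    exact a0 z h2.2 ⟨h2.1, h1⟩
  have sb : ∀ z ∈ S, z ∉ I → z ∉ ({p, r} : Finset V3) → b z = 0 := fun z _ h1 h2 => by
    simp only [mem_insert, mem_singleton, not_or] at h2
    exact b0 z h2.2 ⟨h2.1, h1⟩
  have na : (supp S a).Nonempty := ⟨p, mem_supp.2 ⟨hp, ap⟩⟩
  have nb : (supp S b).Nonempty := ⟨p, mem_supp.2 ⟨hp, bp⟩⟩
  have lpq : p ⨯₃ q ≠ 0 := hS.2 p hp q hq hqp.symm
  have lpr : p ⨯₃ r ≠ 0 := hS.2 p hp r hr hrp.symm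
  have lqr : q ⨯₃ r ≠ 0 := hS.2 q hq r hr hqr
  have d1 : ∀ u v : V3, (u ⨯₃ v) ⬝ᵥ u = 0 := fun u v => by rw [dotProduct_comm, dot_self_cross]
  have d2 : ∀ u v : V3, (u ⨯₃ v) ⬝ᵥ v = 0 := fun u v => by rw [dotProduct_comm, dot_cross_self]
  obtain ⟨t, ht⟩ := mult a p q _ ha sa (d1 p q) (d2 p q)
  by_cases t0 : t = 0
  · exact Or.inl ⟨_, lpq, three a p q _ ha na sa (t0 ▸ ht), Or.inl ⟨d1 p q, d2 p q⟩⟩
  by_cases hcol : (p ⨯₃ q) ⬝ᵥ r = 0
  · obtain ⟨s, hs⟩ := mult b p r _ hb sb (d1 p q) hcol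
    by_cases s0 : s = 0
    · exact Or.inl ⟨_, lpq, three b p r _ hb nb sb (s0 ▸ hs), Or.inl ⟨d1 p q, d2 p q⟩⟩
    refine Or.inr (Or.inl ⟨_, lpq, ?_, d1 p q, d2 p q, hcol, fun z hz h1 => ?_⟩)
    · have := card_zer_ge (B := {p, q, r}) hS (ha.comb hb s (-t))
        ⟨q, mem_supp.2 ⟨hq, by simpa [aq, bq] using s0⟩⟩ (I := I) (l := p ⨯₃ q)
        (fun z hz h1 h2 => by
          simp only [mem_insert, mem_singleton, not_or] at h2
          simp [a0 z h2.2.1 ⟨h2.1, h1⟩, b0 z h2.2.2 ⟨h2.1, h1⟩])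
        (fun z hz h1 => by
          have e1 := ht z hz
          have e2 := hs z hz
          have : (s * a z + -t * b z) * (p ⨯₃ q) ⬝ᵥ z = 0 := by
            linear_combination s * e1 - t * e2
          exact (mul_eq_zero.1 this).resolve_right h1)
      have h3 : ({p, q, r} : Finset V3).card ≤ 3 := card_le_three
      omega
    · have := ht z hz
      rw [h1, mul_zero] at this
      exact (mul_eq_zero.1 this.symm).resolve_left t0
  obtain ⟨s, hs⟩ := mult b p r _ hb sb (d1 p r) (d2 p r)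
  have he := ha.comb hb (b p) (-a p)
  have se : ∀ z ∈ S, z ∉ I → z ∉ ({q, r} : Finset V3) → b p * a z + -a p * b z = 0 :=
    fun z _ h1 h2 => by
      simp only [mem_insert, mem_singleton, not_or] at h2
      by_cases h3 : z = p
      · rw [h3]; ring
      · simp [a0 z h2.1 ⟨h3, h1⟩, b0 z h2.2 ⟨h3, h1⟩]
  obtain ⟨w, hw⟩ := mult _ q r _ he se (d1 q r) (d2 q r)
  refine Or.inr (Or.inr ⟨C (b p * t) * (lin (p ⨯₃ r) * lin (q ⨯₃ r)) +
    C (-a p * s) * (lin (p ⨯₃ q) * lin (q ⨯₃ r)) + C (-w) * (lin (p ⨯₃ q) * lin (p ⨯₃ r)),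
    fun e => ?_, ?_, by simp [d1], by simp [d1, d2], by simp [d2], fun z hz => ?_⟩)
  · have := congrArg (eval (p + q)) e
    simp only [map_add, map_mul, eval_C, eval_lin, dotProduct_add, d1, d2, map_zero] at this
    have e1 : (p ⨯₃ r) ⬝ᵥ q = -((p ⨯₃ q) ⬝ᵥ r) := by
      simp only [cross_apply, vec3_dotProduct, Matrix.cons_val]; ring
    have e2 : (q ⨯₃ r) ⬝ᵥ p = (p ⨯₃ q) ⬝ᵥ r := by
      simp only [cross_apply, vec3_dotProduct, Matrix.cons_val]; ring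
    rw [e1, e2] at this
    have h5 : b p * t * ((p ⨯₃ q) ⬝ᵥ r * (p ⨯₃ q) ⬝ᵥ r) = 0 := by linarith
    exact mul_ne_zero (mul_ne_zero bp t0) (mul_ne_zero hcol hcol) h5
  · have hh : ∀ (x : ℝ) (u v : V3), (C x * (lin u * lin v) : Pol).IsHomogeneous 2 := fun x u v =>
      (isHomogeneous_C (Fin 3) x).mul ((lin_hom u).mul (lin_hom v))
    exact ((hh _ _ _).add (hh _ _ _)).add (hh _ _ _)
  · obtain ⟨hzI, hz0⟩ := mem_supp.1 hz
    have e1 := ht z hzI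
    have e2 := hs z hzI
    have e3 := hw z hzI
    simp only [map_add, map_mul, eval_C, eval_lin]
    apply mul_left_cancel₀ hz0
    linear_combination (-(b p) * (p ⨯₃ r) ⬝ᵥ z * (q ⨯₃ r) ⬝ᵥ z) * e1 +
      (a p * (p ⨯₃ q) ⬝ᵥ z * (q ⨯₃ r) ⬝ᵥ z) * e2 + ((p ⨯₃ q) ⬝ᵥ z * (p ⨯₃ r) ⬝ᵥ z) * e3

theorem par_dot {u v l : V3} (h : u ⨯₃ v = 0) (hu : u ≠ 0) (hl : l ⬝ᵥ u = 0) : l ⬝ᵥ v = 0 := by
  have h1 := cross_cross_eq_smul_sub_smul' u u v
  rw [h, map_zero] at h1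
  have := congrArg (fun w => l ⬝ᵥ w) h1
  simp only [dotProduct_zero, dotProduct_sub, dotProduct_smul, smul_eq_mul, hl] at this
  have h2 : u ⬝ᵥ u * l ⬝ᵥ v = 0 := by linarith
  exact (mul_eq_zero.1 h2).resolve_left fun e => hu (dotProduct_self_eq_zero.1 e)

/-- coordinates on a net of forms -/
theorem exists_net {d : ℕ} {I : Finset V3} (h3 : finrank ℝ (van d I) = 3) :
    ∃ (φ : V3 → V3) (G : V3 → Pol), (∀ l, (G l).IsHomogeneous d) ∧ (∀ l, l ≠ 0 → G l ≠ 0) ∧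
      (∀ l p, eval p (G l) = l ⬝ᵥ φ p) ∧ (∀ p ∈ I, φ p = 0) ∧
      ∀ F : Pol, F.IsHomogeneous d → (∀ p ∈ I, eval p F = 0) → ∃ l, F = G l := by
  have : Module.Free ℝ (van d I) := Module.Free.of_divisionRing ℝ (van d I)
  let b := Module.finBasisOfFinrankEq ℝ (van d I) h3
  refine ⟨fun p i => eval p ((b i).1 : Pol), fun l => ((b.equivFun.symm l).1 : Pol),
    fun l => (b.equivFun.symm l).1.2, fun l hl e => hl ?_, fun l p => ?_, fun p hp => ?_,
    fun F hF h => ?_⟩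
  · have : b.equivFun.symm l = 0 := Subtype.ext (Subtype.ext e)
    exact b.equivFun.symm.map_eq_zero_iff.1 this
  · simp [Basis.equivFun_symm_apply, dotProduct, smul_eval]
  · ext i
    exact mem_van.1 (b i).2 p hp
  · exact ⟨b.equivFun ⟨⟨F, hF⟩, mem_van.2 h⟩, by simp⟩

theorem net {d : ℕ} {S I A : Finset V3} (hIS : I ⊆ S) (hI : I.card + 3 = (d + 2).choose 2)
    (hind : Ind d I) (n1 : ∀ p ∈ S, p ∉ I → ¬InCl d I p)
    (n2 : ∀ p ∈ S, p ∉ I → p ∉ A → ∀ q ∈ S, q ∉ I → ∀ r ∈ S, r ∉ I → q ≠ p → r ≠ p → q ≠ r →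
      InCl d (insert p I) q → InCl d (insert p I) r → False)
    (n3 : ∀ p ∈ S, p ∉ I → p ∉ A → ∀ q ∈ A, q ∉ I → ¬InCl d (insert q I) p)
    (n4 : ∀ q ∈ A, q ∉ I → ∀ r ∈ A, InCl d (insert q I) r)
    (n5 : ¬OnC d (S \ A ∪ I)) : Rz d S (I.card + 2) := by
  classical
  by_contra hno
  have hbig : I.card + 3 ≤ S.card := by
    have h1 := card_ge_of_not_onC n5
    have h2 := card_le_card (union_subset (sdiff_subset (s := S) (t := A)) hIS)
    omega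
  have single : ∀ p ∈ S, p ∉ I → p ∉ A → ∀ q ∈ S, q ∉ I → q ≠ p → ¬InCl d (insert p I) q := by
    intro p hp hpI hpA q hq hqI hqp hc
    have hcard : (insert q (insert p I)).card = I.card + 2 := by
      rw [card_insert_of_notMem (by simp [hqp, hqI]), card_insert_of_notMem hpI]
    have hsub : insert q (insert p I) ⊆ S := insert_subset hq (insert_subset hp hIS)
    refine hno (hcard ▸ rz_of_flat hsub ?_ fun r hr hrn hr2 => ?_)
    · exact exists_of_ssubset (hsub.ssubset_of_ne fun e => by rw [← e] at hbig; omega)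
    · simp only [mem_insert, not_or] at hrn
      refine n2 p hp hpI hpA q hq hqI r hr hrn.2.2 hqp hrn.2.1 (Ne.symm hrn.1) hc fun F hF h => ?_
      refine hr2 F hF fun z hz => ?_
      rcases mem_insert.1 hz with rfl | hz
      · exact hc F hF h
      · exact h z hz
  obtain ⟨φ, G, g1, g2, g3, g4, g5⟩ := exists_net (d := d) (I := I) (by
    have := hind.finrank_van
    omega)
  have φ0 : ∀ p ∈ S, p ∉ I → φ p ≠ 0 := fun p hp hpI e => n1 p hp hpI fun F hF h => by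
    obtain ⟨l, rfl⟩ := g5 F hF h
    simp [g3, e]
  have par : ∀ p q, φ p ≠ 0 → φ p ⨯₃ φ q = 0 → InCl d (insert p I) q := fun p q h0 h F hF h1 => by
    obtain ⟨l, rfl⟩ := g5 F hF fun z hz => h1 z (mem_insert_of_mem hz)
    rw [g3]
    exact par_dot h h0 (by rw [← g3]; exact h1 p (mem_insert_self _ _))
  set T := (S \ A) \ I with hT
  have mT : ∀ p, p ∈ T ↔ p ∈ S ∧ p ∉ A ∧ p ∉ I := fun p => by simp [hT, and_assoc]
  obtain ⟨h, hh1, hh2⟩ : ∃ h : V3, (∀ p ∈ T, φ p ⨯₃ h ≠ 0) ∧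
      ∀ l, l ⬝ᵥ h ≠ 0 → ∀ q ∈ S, q ∈ A → q ∉ I → l ⬝ᵥ φ q ≠ 0 := by
    by_cases hA : ∃ q ∈ S, q ∈ A ∧ q ∉ I
    · obtain ⟨q, hq, hqA, hqI⟩ := hA
      refine ⟨φ q, fun p hp e => ?_, fun l hl r _ hrA hrI e => hl ?_⟩
      · obtain ⟨h1, h2, h3⟩ := (mT p).1 hp
        refine n3 p h1 h3 h2 q hqA hqI (par q p (φ0 q hq hqI) ?_)
        rw [← cross_anticomm, e, neg_zero]
      · rw [← g3]
        refine n4 r hrA hrI q hqA _ (g1 l) fun z hz => ?_
        rcases mem_insert.1 hz with rfl | hz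
        · rw [g3, e]
        · rw [g3, g4 z hz, dotProduct_zero]
    · obtain ⟨h, hh⟩ := exists_avoid T φ fun p hp => φ0 p ((mT p).1 hp).1 ((mT p).1 hp).2.2
      exact ⟨h, hh, fun l _ q hq hqA hqI => absurd ⟨q, hq, hqA, hqI⟩ hA⟩
  obtain ⟨l, hl, hc⟩ := asg T φ h (fun p hp q hq hpq e => by
      obtain ⟨h1, h2, h3⟩ := (mT p).1 hp
      obtain ⟨h4, -, h6⟩ := (mT q).1 hq
      exact single p h1 h3 h2 q h4 h6 hpq.symm (par p q (φ0 p h1 h3) e)) hh1 fun l hl => by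
    by_contra hcon
    push Not at hcon
    refine n5 ⟨G l, g2 l hl, g1 l, fun p hp => ?_⟩
    rw [g3]
    by_cases hpI : p ∈ I
    · rw [g4 p hpI, dotProduct_zero]
    · exact hcon p (mem_sdiff.2 ⟨(mem_union.1 hp).resolve_right hpI, hpI⟩)
  refine hno ⟨G l, g2 l (fun e => hl (by simp [e])), g1 l, ?_⟩
  rw [← hc, ← card_union_of_disjoint]
  · congr 1
    ext p
    simp only [mem_zer, g3, mem_union, mem_filter, mT]
    constructor
    · rintro ⟨h1, h2⟩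
      by_cases hpI : p ∈ I
      · exact Or.inl hpI
      · exact Or.inr ⟨⟨h1, fun hA => hh2 l hl p h1 hA hpI h2, hpI⟩, h2⟩
    · rintro (h1 | ⟨⟨h1, -⟩, h2⟩)
      · exact ⟨hIS h1, by rw [g4 p h1, dotProduct_zero]⟩
      · exact ⟨h1, h2⟩
  · rw [disjoint_left]
    intro p hp hq
    exact ((mT p).1 (mem_filter.1 hq).1).2.2 hp

end Pool.Agent.P.MP_ed12bb_co
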