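import Mathlib

/-!
Affine Sylvester-Gallai theorem: an ordinary line avoiding a given point.
-/

namespace Pool.Agent.P.MP_ed12bb_co

open Finset Matrix

section Core

variable {α : Type*}

/-- two points on a common vertical, every other point has partners: impossible -/
theorem vert_pair (S : Finset α) (x y : α → ℝ) (x0 yb yp : ℝ) (hlt : yb < yp)
    (hne : ∃ u ∈ S, x u ≠ x0)
    (hb : ∀ u ∈ S, x u ≠ x0 → ∃ w ∈ S, (x w - x0) * (x u - x0) < 0 ∧
      (y w - yb) * (x u - x0) = (y u - yb) * (x w - x0))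
    (hp : ∀ u ∈ S, x u ≠ x0 → ∃ w ∈ S, (x w - x0) * (x u - x0) < 0 ∧
      (y w - yp) * (x u - x0) = (y u - yp) * (x w - x0)) : False := by
  classical
  set T := S.filter fun u => x u ≠ x0 with hT
  have hTne : T.Nonempty := by
    obtain ⟨u, hu, h⟩ := hne
    exact ⟨u, mem_filter.2 ⟨hu, h⟩⟩
  let s : α → ℝ := fun u => (y u - yb) / (x u - x0)
  obtain ⟨u, huT, hmax⟩ := exists_max_image T s hTne
  obtain ⟨huS, hux⟩ := mem_filter.1 huT
  -- a maximiser on the left
  have left : ∃ v ∈ S, x v < x0 ∧ s v = s u := by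
    rcases lt_or_gt_of_ne hux with h | h
    · exact ⟨u, huS, h, rfl⟩
    · obtain ⟨w, hw, h1, h2⟩ := hb u huS hux
      have hw0 : x w - x0 < 0 := by
        by_contra hc
        push Not at hc
        have : 0 ≤ (x w - x0) * (x u - x0) := mul_nonneg hc (by linarith)
        linarith
      refine ⟨w, hw, by linarith, ?_⟩
      have e1 : x w - x0 ≠ 0 := hw0.ne
      have e2 : x u - x0 ≠ 0 := sub_ne_zero.2 hux
      simp only [s]
      rw [div_eq_div_iff e1 e2]
      exact h2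
  obtain ⟨v, hv, hvx, hvs⟩ := left
  obtain ⟨w, hw, h1, h2⟩ := hp v hv hvx.ne
  have hv0 : x v - x0 < 0 := by linarith
  have hw0 : 0 < x w - x0 := by
    by_contra hc
    push Not at hc
    have : 0 ≤ (x w - x0) * (x v - x0) := mul_nonneg_of_nonpos_of_nonpos hc hv0.le
    linarith
  have hwT : w ∈ T := mem_filter.2 ⟨hw, by intro h; rw [h] at hw0; simp at hw0⟩
  have hle := hmax w hwT
  rw [← hvs] at hle
  simp only [s] at hle
  rw [div_le_iff₀ hw0, div_mul_eq_mul_div, le_div_iff_of_neg hv0] at hle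
  nlinarith [mul_pos (sub_pos.2 hlt) hw0, mul_pos (sub_pos.2 hlt) (neg_pos.2 hv0)]

theorem core_sg (S : Finset α) (x y : α → ℝ)
    (hinj : ∀ p ∈ S, ∀ q ∈ S, p ≠ q → x p ≠ x q ∨ y p ≠ y q)
    (hv : ∀ c : ℝ, ∃ p ∈ S, x p ≠ c)
    (hn : ∀ m c : ℝ, ∃ p ∈ S, y p ≠ m * x p + c) :
    ∃ m c : ℝ, (S.filter fun p => y p = m * x p + c).card = 2 := by
  classical
  by_contra hno
  push Not at hno
  -- slope and intercept of the line through two points
  let sl : α → α → ℝ := fun a b => (y b - y a) / (x b - x a)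
  let ic : α → α → ℝ := fun a b => y a - sl a b * x a
  have hA : ∀ a b, y a = sl a b * x a + ic a b := fun a b => by simp only [ic]; ring
  have hB : ∀ a b, x a ≠ x b → y b = sl a b * x b + ic a b := fun a b h => by
    have : x b - x a ≠ 0 := sub_ne_zero.2 (Ne.symm h)
    simp only [ic, sl]
    field_simp
    ring
  have huniq : ∀ a b m c, x a ≠ x b → y a = m * x a + c → y b = m * x b + c →
      m = sl a b ∧ c = ic a b := fun a b m c h h1 h2 => by
    have h0 : x b - x a ≠ 0 := sub_ne_zero.2 (Ne.symm h)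
    have hm : m = sl a b := by
      simp only [sl]
      rw [eq_div_iff h0, h1, h2]
      ring
    refine ⟨hm, ?_⟩
    simp only [ic]
    rw [← hm, h1]
    ring
  let T : Finset (α × α × α) := (S ×ˢ S ×ˢ S).filter fun t =>
    x t.1 ≠ x t.2.1 ∧ y t.2.2 ≠ sl t.1 t.2.1 * x t.2.2 + ic t.1 t.2.1
  have hTne : T.Nonempty := by
    obtain ⟨a, ha, -⟩ := hv 0
    obtain ⟨b, hb, hab⟩ := hv (x a)
    obtain ⟨p, hp, h⟩ := hn (sl a b) (ic a b)
    exact ⟨(a, b, p), mem_filter.2 ⟨by simp [ha, hb, hp], Ne.symm hab, h⟩⟩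
  let f : α × α × α → ℝ := fun t => |y t.2.2 - (sl t.1 t.2.1 * x t.2.2 + ic t.1 t.2.1)|
  obtain ⟨⟨a0, b0, p0⟩, hT0, hmin⟩ := exists_min_image T f hTne
  set D := f (a0, b0, p0) with hD
  have hDle : ∀ a ∈ S, ∀ b ∈ S, x a ≠ x b → ∀ m c, y a = m * x a + c → y b = m * x b + c →
      ∀ q ∈ S, y q ≠ m * x q + c → D ≤ |y q - (m * x q + c)| := by
    intro a ha b hb hab m c h1 h2 q hq h3
    obtain ⟨rfl, rfl⟩ := huniq a b m c hab h1 h2
    exact hmin (a, b, q) (mem_filter.2 ⟨by simp [ha, hb, hq], hab, h3⟩)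
  -- three points on a minimal line: the middle one is on the vertical of the apex
  have mid : ∀ m c, ∀ p ∈ S, y p ≠ m * x p + c → |y p - (m * x p + c)| = D →
      ∀ a ∈ S, ∀ b ∈ S, ∀ e ∈ S, y a = m * x a + c → y b = m * x b + c → y e = m * x e + c →
      x a < x b → x b < x e → x p = x b := by
    intro m c p hp hpn hpD a ha b hb e he h1 h2 h3 hab hbe
    have key : ∀ u ∈ S, y u = m * x u + c → x u ≠ x p → x u ≠ x b →
        |x p - x u| ≤ |x b - x u| := by
      intro u hu h4 hup hub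
      have hδ : y p - (m * x p + c) ≠ 0 := sub_ne_zero.2 hpn
      have h0 : x p - x u ≠ 0 := sub_ne_zero.2 (Ne.symm hup)
      have hval : y b - (sl u p * x b + ic u p) =
          -((y p - (m * x p + c)) * (x b - x u) / (x p - x u)) := by
        simp only [ic, sl]
        rw [h2, h4]
        field_simp
        ring
      have hne : y b ≠ sl u p * x b + ic u p := by
        intro h
        rw [h, sub_self] at hval
        have := neg_eq_zero.1 hval.symm
        rw [div_eq_zero_iff] at this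
        rcases this with h5 | h5
        · rcases mul_eq_zero.1 h5 with h6 | h6
          · exact hδ h6
          · exact hub (by linarith)
        · exact h0 h5
      have := hDle u hu p hp hup _ _ (hA u p) (hB u p hup) b hb hne
      rw [hval, abs_neg, abs_div, abs_mul, hpD, le_div_iff₀ (abs_pos.2 h0)] at this
      have hDpos : 0 < D := hpD ▸ abs_pos.2 hδ
      exact le_of_mul_le_mul_left this hDpos
    by_contra hne
    rcases lt_or_gt_of_ne hne with h | h
    · have := key e he h3 (by linarith) (by linarith)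
      rw [abs_of_neg (by linarith), abs_of_neg (by linarith)] at this
      linarith
    · have := key a ha h1 (by linarith) (by linarith)
      rw [abs_of_pos (by linarith), abs_of_pos (by linarith)] at this
      linarith
  -- a third point on every spanned line
  have third : ∀ m c, ∀ a ∈ S, ∀ b ∈ S, x a ≠ x b → y a = m * x a + c → y b = m * x b + c →
      ∃ e ∈ S, y e = m * x e + c ∧ x e ≠ x a ∧ x e ≠ x b := by
    intro m c a ha b hb hab h1 h2
    have hne : a ≠ b := fun h => hab (h ▸ rfl)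
    have hsub : ({a, b} : Finset α) ⊆ S.filter fun p => y p = m * x p + c := by
      intro z hz
      rcases mem_insert.1 hz with rfl | hz
      · exact mem_filter.2 ⟨ha, h1⟩
      · rw [mem_singleton.1 hz]
        exact mem_filter.2 ⟨hb, h2⟩
    have hss : ({a, b} : Finset α) ≠ S.filter fun p => y p = m * x p + c := by
      intro h
      exact hno m c (by rw [← h, card_pair hne])
    obtain ⟨e, he, hen⟩ := exists_of_ssubset (hsub.ssubset_of_ne hss)
    obtain ⟨heS, h3⟩ := mem_filter.1 he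
    simp only [mem_insert, mem_singleton, not_or] at hen
    refine ⟨e, heS, h3, ?_, ?_⟩
    · intro h
      rcases hinj e heS a ha hen.1 with h4 | h4
      · exact h4 h
      · exact h4 (by rw [h3, h1, h])
    · intro h
      rcases hinj e heS b hb hen.2 with h4 | h4
      · exact h4 h
      · exact h4 (by rw [h3, h2, h])
  -- sorting three points
  have sort3 : ∀ m c, ∀ p ∈ S, y p ≠ m * x p + c → |y p - (m * x p + c)| = D →
      ∀ a ∈ S, ∀ b ∈ S, ∀ e ∈ S, y a = m * x a + c → y b = m * x b + c → y e = m * x e + c →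
      x a ≠ x b → x e ≠ x a → x e ≠ x b →
      (x p = x a ∧ (x b - x a) * (x e - x a) < 0) ∨ (x p = x b ∧ (x a - x b) * (x e - x b) < 0) ∨
        (x p = x e ∧ (x a - x e) * (x b - x e) < 0) := by
    intro m c p hp hpn hpD a ha b hb e he h1 h2 h3 hab hea heb
    have M := mid m c p hp hpn hpD
    rcases lt_or_gt_of_ne hab with s1 | s1 <;> rcases lt_or_gt_of_ne hea with s2 | s2 <;>
      rcases lt_or_gt_of_ne heb with s3 | s3
    · exact Or.inl ⟨M e he a ha b hb h3 h1 h2 s2 s1, by nlinarith⟩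
    · linarith
    · exact Or.inr (Or.inr ⟨M a ha e he b hb h1 h3 h2 s2 s3, by nlinarith⟩)
    · exact Or.inr (Or.inl ⟨M a ha b hb e he h1 h2 h3 s1 s3, by nlinarith⟩)
    · exact Or.inr (Or.inl ⟨M e he b hb a ha h3 h2 h1 s3 s1, by nlinarith⟩)
    · exact Or.inr (Or.inr ⟨M b hb e he a ha h2 h3 h1 s3 s2, by nlinarith⟩)
    · linarith
    · exact Or.inl ⟨M b hb a ha e he h2 h1 h3 s1 s2, by nlinarith⟩
  obtain ⟨hmem, hx0, hy0⟩ := mem_filter.1 hT0
  simp only [mem_product] at hmem hx0 hy0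
  obtain ⟨ha0, hb0, hp0⟩ := hmem
  obtain ⟨e0, he0, h3, hea, heb⟩ := third _ _ a0 ha0 b0 hb0 hx0 (hA a0 b0) (hB a0 b0 hx0)
  have hb : ∃ b ∈ S, x b = x p0 ∧ |y p0 - y b| = D ∧ y p0 ≠ y b := by
    have e : ∀ b ∈ S, y b = sl a0 b0 * x b + ic a0 b0 → x p0 = x b →
        ∃ b ∈ S, x b = x p0 ∧ |y p0 - y b| = D ∧ y p0 ≠ y b := fun b hb h1 h2 =>
      ⟨b, hb, h2.symm, by rw [h1, ← h2], by rw [h1, ← h2]; exact hy0⟩
    rcases sort3 _ _ p0 hp0 hy0 rfl a0 ha0 b0 hb0 e0 he0 (hA a0 b0) (hB a0 b0 hx0) h3 hx0 hea heb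
      with h | h | h
    · exact e a0 ha0 (hA a0 b0) h.1
    · exact e b0 hb0 (hB a0 b0 hx0) h.1
    · exact e e0 he0 h3 h.1
  obtain ⟨b, hbS, hbx, hbD, hbn⟩ := hb
  have partner : ∀ b ∈ S, ∀ p ∈ S, x b = x p → |y p - y b| = D → y p ≠ y b →
      ∀ u ∈ S, x u ≠ x b → ∃ w ∈ S, (x w - x b) * (x u - x b) < 0 ∧
        (y w - y b) * (x u - x b) = (y u - y b) * (x w - x b) := by
    intro b hb p hp hx hD' hn' u hu hub
    have hbu : x b ≠ x u := Ne.symm hub
    obtain ⟨w, hw, h4, hwb, hwu⟩ := third _ _ b hb u hu hbu (hA b u) (hB b u hbu)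
    have e1 : sl b u * x p + ic b u = y b := by rw [← hx]; exact (hA b u).symm
    rcases sort3 _ _ p hp (by rw [e1]; exact hn') (by rw [e1]; exact hD') b hb u hu w hw (hA b u)
      (hB b u hbu) h4 hbu hwb hwu with h | h | h
    · refine ⟨w, hw, by linarith [h.2], ?_⟩
      rw [h4, hB b u hbu]
      conv_lhs => rw [hA b u]
      conv_rhs => rw [hA b u]
      ring
    · exact absurd (hx.trans h.1) hbu
    · exact absurd (hx.trans h.1) (Ne.symm hwb)
  have P1 := partner b hbS p0 hp0 hbx hbD hbn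
  have P2 := partner p0 hp0 b hbS hbx.symm (by rw [abs_sub_comm]; exact hbD) (Ne.symm hbn)
  rw [← hbx] at P2
  rcases lt_or_gt_of_ne hbn with h | h
  · exact vert_pair S x y (x b) (y p0) (y b) h (hv _) P2 P1
  · exact vert_pair S x y (x b) (y b) (y p0) h (hv _) P1 P2

end Core

section Vec

/-- vectors of the real 3-space -/
abbrev V3 := Fin 3 → ℝ

theorem cross_sq (u v : V3) : (u ⨯₃ v) ⬝ᵥ (u ⨯₃ v) = u ⬝ᵥ u * v ⬝ᵥ v - (u ⬝ᵥ v) ^ 2 := by
  rw [cross_dot_cross, dotProduct_comm v u]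
  ring

/-- a vector orthogonal to two independent vectors is parallel to their cross product -/
theorem cross_cross_zero {w u v : V3} (h1 : w ⬝ᵥ u = 0) (h2 : w ⬝ᵥ v = 0) :
    w ⨯₃ (u ⨯₃ v) = 0 := by
  rw [cross_cross_eq_smul_sub_smul', h2, dotProduct_comm u w, h1]
  simp

theorem eq_zero_of_cross_dot {w n : V3} (hn : n ≠ 0) (h1 : w ⨯₃ n = 0) (h2 : w ⬝ᵥ n = 0) :
    w = 0 := by
  have h := cross_sq w n
  rw [h1, h2] at h
  simp only [zero_dotProduct] at h
  have : w ⬝ᵥ w * n ⬝ᵥ n = 0 := by linarith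
  rcases mul_eq_zero.1 this with h3 | h3
  · exact dotProduct_self_eq_zero.1 h3
  · exact absurd (dotProduct_self_eq_zero.1 h3) hn

/-- two lines through two distinct points have the same zeros -/
theorem line_unique {p q l m z : V3} (hpq : p ⨯₃ q ≠ 0) (hl : l ≠ 0) (h1 : l ⬝ᵥ p = 0)
    (h2 : l ⬝ᵥ q = 0) (h3 : m ⬝ᵥ p = 0) (h4 : m ⬝ᵥ q = 0) (hz : l ⬝ᵥ z = 0) : m ⬝ᵥ z = 0 := by
  have a1 : l ⨯₃ (p ⨯₃ q) = 0 := cross_cross_zero h1 h2
  have a2 : m ⨯₃ (p ⨯₃ q) = 0 := cross_cross_zero h3 h4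
  have hln : l ⬝ᵥ (p ⨯₃ q) ≠ 0 := fun h => hl (eq_zero_of_cross_dot hpq a1 h)
  have w0 : (l ⬝ᵥ (p ⨯₃ q)) • m - (m ⬝ᵥ (p ⨯₃ q)) • l = 0 := by
    refine eq_zero_of_cross_dot hpq ?_ ?_
    · simp [a1, a2]
    · simp only [sub_dotProduct, smul_dotProduct, smul_eq_mul]
      ring
  have := congrArg (fun w => w ⬝ᵥ z) w0
  simp only [sub_dotProduct, smul_dotProduct, smul_eq_mul, hz, zero_dotProduct] at this
  have h5 : l ⬝ᵥ (p ⨯₃ q) * m ⬝ᵥ z = 0 := by linarith
  exact (mul_eq_zero.1 h5).resolve_left hln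

theorem dual_dot (p : V3) : ∃ f : Module.Dual ℝ V3, ∀ z, f z = z ⬝ᵥ p :=
  ⟨{ toFun := fun z => z ⬝ᵥ p
     map_add' := fun a b => add_dotProduct a b p
     map_smul' := fun c a => by simp [smul_dotProduct] }, fun _ => rfl⟩

/-- a line through a given point missing finitely many other points -/
theorem exists_line_through {α : Type*} (S : Finset α) (φ : α → V3) (h : V3)
    (hh : ∀ p ∈ S, φ p ⨯₃ h ≠ 0) : ∃ z : V3, z ⬝ᵥ h = 0 ∧ ∀ p ∈ S, z ⬝ᵥ φ p ≠ 0 := by
  choose f hf using dual_dot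
  obtain ⟨z, hz, h2⟩ := Module.Dual.exists_forall_mem_ne_zero_of_forall_exists
    (LinearMap.ker (f h)) (fun p : S => f (φ p)) fun p => by
      refine ⟨h ⨯₃ (φ p ⨯₃ h), ?_, ?_⟩
      · rw [LinearMap.mem_ker, hf, dotProduct_comm, dot_self_cross]
      · rw [hf, dotProduct_comm, triple_product_permutation, triple_product_permutation]
        exact fun e => hh p p.2 (dotProduct_self_eq_zero.1 e)
  refine ⟨z, by simpa [hf] using hz, fun p hp => ?_⟩
  simpa [hf] using h2 ⟨p, hp⟩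

theorem asg {α : Type*} (S : Finset α) (φ : α → V3) (h : V3)
    (hpd : ∀ p ∈ S, ∀ q ∈ S, p ≠ q → φ p ⨯₃ φ q ≠ 0) (hh : ∀ p ∈ S, φ p ⨯₃ h ≠ 0)
    (hn : ∀ l : V3, l ≠ 0 → ∃ p ∈ S, l ⬝ᵥ φ p ≠ 0) :
    ∃ l : V3, l ⬝ᵥ h ≠ 0 ∧ (S.filter fun p => l ⬝ᵥ φ p = 0).card = 2 := by
  classical
  obtain ⟨z, hzh, hz⟩ := exists_line_through S φ h hh
  obtain ⟨p0, hp0, -⟩ := hn (fun _ => 1) (by intro e; simpa using congrFun e 0)
  have h0 : h ≠ 0 := fun e => hh p0 hp0 (by simp [e])
  have z0 : z ≠ 0 := fun e => hz p0 hp0 (by simp [e])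
  have hhh : h ⬝ᵥ h ≠ 0 := fun e => h0 (dotProduct_self_eq_zero.1 e)
  set X := z ⨯₃ h with hX
  have hX0 : X ≠ 0 := by
    intro e
    have := cross_sq z h
    rw [← hX, e, hzh] at this
    simp only [zero_dotProduct, ne_eq, OfNat.ofNat_ne_zero, not_false_eq_true, zero_pow,
      sub_zero] at this
    rcases mul_eq_zero.1 this.symm with h3 | h3
    · exact z0 (dotProduct_self_eq_zero.1 h3)
    · exact hhh h3
  have hXh : X ⬝ᵥ h = 0 := by rw [dotProduct_comm, hX, dot_cross_self]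
  have hXz : X ⬝ᵥ z = 0 := by rw [dotProduct_comm, hX, dot_self_cross]
  have hXX : X ⬝ᵥ X ≠ 0 := fun e => hX0 (dotProduct_self_eq_zero.1 e)
  have conv : ∀ m c : ℝ, ∀ p ∈ S, (h ⬝ᵥ φ p / z ⬝ᵥ φ p = m * (X ⬝ᵥ φ p / z ⬝ᵥ φ p) + c) ↔
      (h - m • X - c • z) ⬝ᵥ φ p = 0 := by
    intro m c p hp
    have := hz p hp
    simp only [sub_dotProduct, smul_dotProduct, smul_eq_mul]
    constructor
    · intro e
      field_simp at e
      linarith
    · intro e
      field_simp
      linarith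
  obtain ⟨m, c, hc⟩ := core_sg S (fun p => X ⬝ᵥ φ p / z ⬝ᵥ φ p) (fun p => h ⬝ᵥ φ p / z ⬝ᵥ φ p)
    (by
      intro p hp q hq hpq
      by_contra hcon
      push Not at hcon
      obtain ⟨e1, e2⟩ := hcon
      have zp := hz p hp
      have zq := hz q hq
      rw [div_eq_div_iff zp zq] at e1 e2
      set w := (z ⬝ᵥ φ q) • φ p - (z ⬝ᵥ φ p) • φ q with hw
      have w1 : w ⬝ᵥ z = 0 := by
        rw [dotProduct_comm]
        simp only [hw, dotProduct_sub, dotProduct_smul, smul_eq_mul]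
        ring
      have w2 : w ⬝ᵥ h = 0 := by
        rw [dotProduct_comm]
        simp only [hw, dotProduct_sub, dotProduct_smul, smul_eq_mul]
        linarith
      have w3 : w ⬝ᵥ X = 0 := by
        rw [dotProduct_comm]
        simp only [hw, dotProduct_sub, dotProduct_smul, smul_eq_mul]
        linarith
      have w0 : w = 0 := eq_zero_of_cross_dot hX0 (cross_cross_zero w1 w2) w3
      have : w ⨯₃ φ q = (z ⬝ᵥ φ q) • (φ p ⨯₃ φ q) := by
        simp [hw]
      rw [w0] at this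
      simp only [map_zero, LinearMap.zero_apply] at this
      exact hpd p hp q hq hpq ((smul_eq_zero.1 this.symm).resolve_left zq))
    (by
      intro c
      obtain ⟨p, hp, e⟩ := hn (X - c • z) (by
        intro e
        apply hXX
        have := congrArg (fun w => X ⬝ᵥ w) e
        simpa [hXz] using this)
      refine ⟨p, hp, fun e2 => e ?_⟩
      have := hz p hp
      simp only [sub_dotProduct, smul_dotProduct, smul_eq_mul]
      field_simp at e2
      linarith)
    (by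
      intro m c
      obtain ⟨p, hp, e⟩ := hn (h - m • X - c • z) (by
        intro e
        apply hhh
        have := congrArg (fun w => w ⬝ᵥ h) e
        simpa [hXh, hzh] using this)
      exact ⟨p, hp, fun e2 => e ((conv m c p hp).1 e2)⟩)
  refine ⟨h - m • X - c • z, by simpa [hXh, hzh] using hhh, ?_⟩
  rw [← hc]
  congr 1
  exact filter_congr fun p hp => (conv m c p hp).symm

theorem exists_avoid {α : Type*} (S : Finset α) (φ : α → V3) (h0 : ∀ p ∈ S, φ p ≠ 0) :
    ∃ h : V3, ∀ p ∈ S, φ p ⨯₃ h ≠ 0 := by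
  obtain ⟨h, hh⟩ := Submodule.exists_forall_notMem_of_forall_ne_top
    (fun p : S => LinearMap.ker (crossProduct (R := ℝ) (φ p))) fun p e => by
      apply h0 p p.2
      have key : ∀ w : V3, φ p ⨯₃ w = 0 := fun w => by
        have : w ∈ LinearMap.ker (crossProduct (R := ℝ) (φ p)) := e ▸ Submodule.mem_top
        exact this
      have a := key ![1, 0, 0]
      have b := key ![0, 1, 0]
      rw [cross_apply] at a b
      have a1 := congrFun a 1
      have a2 := congrFun a 2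
      have b2 := congrFun b 2
      simp at a1 a2 b2
      ext i
      fin_cases i <;> simp [*]
  exact ⟨h, fun p hp => hh ⟨p, hp⟩⟩

theorem sg {α : Type*} (S : Finset α) (φ : α → V3) (h0 : ∀ p ∈ S, φ p ≠ 0)
    (hpd : ∀ p ∈ S, ∀ q ∈ S, p ≠ q → φ p ⨯₃ φ q ≠ 0)
    (hn : ∀ l : V3, l ≠ 0 → ∃ p ∈ S, l ⬝ᵥ φ p ≠ 0) :
    ∃ l : V3, l ≠ 0 ∧ (S.filter fun p => l ⬝ᵥ φ p = 0).card = 2 := by
  obtain ⟨h, hh⟩ := exists_avoid S φ h0
  obtain ⟨l, hl, hc⟩ := asg S φ h hpd hh hn
  exact ⟨l, fun e => hl (by simp [e]), hc⟩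

end Vec

end Pool.Agent.P.MP_ed12bb_co
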