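import Pool.Agent.P.MP_ed12bb_co.Net

/-!
Independence of small point sets.
-/

namespace Pool.Agent.P.MP_ed12bb_co

open Finset Matrix MvPolynomial Module

theorem ind_iff_supp {d : ℕ} {Z : Finset V3} :
    Ind d Z ↔ ∀ a, Zs d Z a → ¬(supp Z a).Nonempty := by
  constructor
  · rintro h a ha ⟨z, hz⟩
    exact (mem_supp.1 hz).2 (h a ha z (mem_supp.1 hz).1)
  · intro h a ha z hz
    by_contra e
    exact h a ha ⟨z, mem_supp.2 ⟨hz, e⟩⟩

theorem ind_of_card_le {d : ℕ} {Z : Finset V3} (hZ : PD Z) (h : Z.card ≤ d + 1) : Ind d Z :=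
  ind_iff_supp.2 fun a ha hne => by
    have := (ha.card_supp hZ hne).trans (card_le_card (supp_subset Z a))
    omega

theorem col_supp_le {d k : ℕ} {Z : Finset V3} (hZ : PD Z) {a : V3 → ℝ} (ha : Zs d Z a)
    (hne : (supp Z a).Nonempty) (hl : ∀ l : V3, l ≠ 0 → (zer Z (lin l)).card ≤ k)
    (hk : k ≤ d + 1) : ¬Col (supp Z a) := by
  rintro ⟨l, hl0, h⟩
  have h1 := ha.card_supp hZ hne
  have h2 := card_le_card (s := supp Z a) (t := zer Z (lin l)) fun z hz =>
    mem_zer.2 ⟨supp_subset Z a hz, by simpa using h z hz⟩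
  have := hl l hl0
  omega

theorem ind_small {d : ℕ} {Z : Finset V3} (hZ : PD Z) (h : Z.card ≤ 2 * d + 1)
    (hl : ∀ l : V3, l ≠ 0 → (zer Z (lin l)).card ≤ d + 1) : Ind d Z :=
  ind_iff_supp.2 fun a ha hne => by
    have h1 := (ha.col_or hZ).resolve_left (col_supp_le hZ ha hne hl le_rfl)
    have := card_le_card (supp_subset Z a)
    omega

theorem ind_eight {Z : Finset V3} (hZ : PD Z) (h : Z.card ≤ 8)
    (hl : ∀ l : V3, l ≠ 0 → (zer Z (lin l)).card ≤ 4) (hc : Z.card = 8 → ¬OnC 2 Z) : Ind 3 Z :=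
  ind_iff_supp.2 fun a ha hne => by
    have h0 := col_supp_le hZ ha hne hl le_rfl
    have h1 := (ha.col_or hZ).resolve_left h0
    have h2 := card_le_card (supp_subset Z a)
    have h3 : supp Z a = Z := eq_of_subset_of_card_le (supp_subset Z a) (by omega)
    have h4 := ha.onC_supp (e := 2) hZ h0 (by rw [h3]; exact h)
    rw [h3] at h4
    exact hc (by omega) h4

theorem ind_split {d e : ℕ} {B T : Finset V3} {G : Pol} (hG : G.IsHomogeneous e)
    (hB : Ind (e + d) B) (hT : Ind d T) (h1 : ∀ z ∈ B, eval z G = 0)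
    (h2 : ∀ z ∈ T, eval z G ≠ 0) : Ind (e + d) (B ∪ T) := by
  intro a ha
  have h3 := hT _ ((ha.mul hG).of_subset subset_union_right fun z hz hn => by
    rw [h1 z ((mem_union.1 hz).resolve_right hn), mul_zero])
  have h4 : ∀ z ∈ T, a z = 0 := fun z hz => (mul_eq_zero.1 (h3 z hz)).resolve_right (h2 z hz)
  have h5 := hB a (ha.of_subset subset_union_left fun z hz hn =>
    h4 z ((mem_union.1 hz).resolve_left hn))
  intro z hz
  rcases mem_union.1 hz with h | h
  · exact h5 z h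
  · exact h4 z h

theorem Ind.card_le {d : ℕ} {Z : Finset V3} (h : Ind d Z) : Z.card ≤ (d + 2).choose 2 := by
  have := h.finrank_van
  omega

theorem inCl_of_not_ind {d : ℕ} {K : Finset V3} {a : V3} (hK : Ind d K)
    (h : ¬Ind d (insert a K)) : InCl d K a := by
  by_contra e
  exact h (ind_insert hK e)

theorem onC_inCl {d : ℕ} {K : Finset V3} {a : V3} (hK : Ind d K)
    (hc : K.card + 1 = (d + 2).choose 2) (ha : a ∉ K) (h : OnC d (insert a K)) : InCl d K a :=
  inCl_of_not_ind hK ((onC_iff_not_ind (by rw [card_insert_of_notMem ha, hc])).1 h)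

theorem inCl_mem {d : ℕ} {K : Finset V3} {a : V3} (ha : a ∈ K) : InCl d K a :=
  fun _ _ h => h a ha

theorem InCl.exchange {d : ℕ} {I : Finset V3} {p q : V3} (h : InCl d (insert p I) q)
    (hn : ¬InCl d I q) : InCl d (insert q I) p := by
  intro F hF h1
  by_contra h2
  apply hn
  intro G hG h3
  have := h (C (eval p F) * G - C (eval p G) * F)
    ((hG.C_mul _).sub (hF.C_mul _))
    fun z hz => by
      rcases mem_insert.1 hz with rfl | hz
      · simp [mul_comm]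
      · simp [h3 z hz, h1 z (mem_insert_of_mem hz)]
  simp only [map_sub, map_mul, eval_C, h1 q (mem_insert_self _ _), mul_zero, sub_zero] at this
  exact (mul_eq_zero.1 this).resolve_left h2

theorem exists_ind {d : ℕ} {R : Finset V3} (h : ¬OnC d R) :
    ∃ T ⊆ R, Ind d T ∧ T.card = (d + 2).choose 2 := by
  classical
  obtain ⟨T, hT, hmax⟩ := exists_max_image (R.powerset.filter (Ind d)) card
    ⟨∅, mem_filter.2 ⟨by simp, fun _ _ _ h => by simp at h⟩⟩
  obtain ⟨h1, h2⟩ := mem_filter.1 hT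
  rw [mem_powerset] at h1
  refine ⟨T, h1, h2, le_antisymm h2.card_le (card_ge_of_not_onC ?_)⟩
  rintro ⟨F, f0, hF, h3⟩
  refine h ⟨F, f0, hF, fun p hp => ?_⟩
  by_cases hpT : p ∈ T
  · exact h3 p hpT
  · refine inCl_of_not_ind h2 (fun h4 => ?_) F hF h3
    have := hmax _ (mem_filter.2 ⟨mem_powerset.2 (insert_subset hp h1), h4⟩)
    rw [card_insert_of_notMem hpT] at this
    omega

theorem card_zer_add {S I B : Finset V3} {F : Pol} (hI : I ⊆ S) (hB : B ⊆ S)
    (hd : ∀ z ∈ B, z ∉ I) (h0 : ∀ z ∈ B, eval z F = 0) :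
    (zer I F).card + B.card ≤ (zer S F).card := by
  rw [← card_union_of_disjoint (disjoint_right.2 fun z hz h => hd z hz (zer_subset _ _ h))]
  refine card_le_card (union_subset (fun z hz => ?_) fun z hz => mem_zer.2 ⟨hB hz, h0 z hz⟩)
  exact mem_zer.2 ⟨hI (mem_zer.1 hz).1, (mem_zer.1 hz).2⟩

theorem card_zer_mono {S I : Finset V3} (hI : I ⊆ S) (F : Pol) :
    (zer I F).card ≤ (zer S F).card :=
  card_le_card fun _ hz => mem_zer.2 ⟨hI (mem_zer.1 hz).1, (mem_zer.1 hz).2⟩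

theorem card_zer_union (A B : Finset V3) (F : Pol) :
    (zer (A ∪ B) F).card ≤ (zer A F).card + (zer B F).card := by
  refine le_trans (card_le_card fun z hz => ?_) (card_union_le _ _)
  obtain ⟨h1, h2⟩ := mem_zer.1 hz
  rcases mem_union.1 h1 with h | h
  · exact mem_union_left _ (mem_zer.2 ⟨h, h2⟩)
  · exact mem_union_right _ (mem_zer.2 ⟨h, h2⟩)

theorem card_zer_insert (a : V3) (B : Finset V3) (F : Pol) :
    (zer (insert a B) F).card ≤ (zer B F).card + 1 := by
  rw [insert_eq, add_comm]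
  refine (card_zer_union _ _ _).trans (Nat.add_le_add_right ?_ _)
  exact (card_le_card (zer_subset _ _)).trans (by simp)

theorem cross_dot1 (u v : V3) : (u ⨯₃ v) ⬝ᵥ u = 0 := by rw [dotProduct_comm, dot_self_cross]

theorem cross_dot2 (u v : V3) : (u ⨯₃ v) ⬝ᵥ v = 0 := by rw [dotProduct_comm, dot_cross_self]

/-- two lines sharing two points of a set have the same zeros -/
theorem same_line {S : Finset V3} (hS : PD S) {l m : V3} (hl : l ≠ 0) {u v : V3} (hu : u ∈ S)
    (hv : v ∈ S) (huv : u ≠ v) (h1 : l ⬝ᵥ u = 0) (h2 : l ⬝ᵥ v = 0) (h3 : m ⬝ᵥ u = 0)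
    (h4 : m ⬝ᵥ v = 0) {z : V3} (hz : l ⬝ᵥ z = 0) : m ⬝ᵥ z = 0 :=
  line_unique (hS.2 u hu v hv huv) hl h1 h2 h3 h4 hz

theorem gen_insert {T : Finset V3} {u : V3} (hT : PD T)
    (h : ∀ l : V3, l ≠ 0 → (zer T (lin l)).card ≤ 2)
    (hu : ∀ x ∈ T, ∀ y ∈ T, x ≠ y → (x ⨯₃ y) ⬝ᵥ u ≠ 0) :
    ∀ l : V3, l ≠ 0 → (zer (insert u T) (lin l)).card ≤ 2 := by
  intro l hl
  by_cases h0 : l ⬝ᵥ u = 0
  · refine (card_zer_insert _ _ _).trans (Nat.add_le_add_right (card_le_one.2 ?_) 1)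
    intro x hx y hy
    by_contra hne
    obtain ⟨hx1, hx2⟩ := mem_zer.1 hx
    obtain ⟨hy1, hy2⟩ := mem_zer.1 hy
    rw [eval_lin] at hx2 hy2
    exact hu x hx1 y hy1 hne
      (same_line hT hl hx1 hy1 hne hx2 hy2 (cross_dot1 x y) (cross_dot2 x y) h0)
  · refine le_trans (card_le_card fun z hz => ?_) (h l hl)
    obtain ⟨h1, h2⟩ := mem_zer.1 hz
    rcases mem_insert.1 h1 with rfl | h1
    · exact absurd (by simpa using h2) h0
    · exact mem_zer.2 ⟨h1, h2⟩

theorem drop {d : ℕ} {Y Av : Finset V3} (hne : Av.Nonempty)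
    (h : ∀ F : Pol, F ≠ 0 → F.IsHomogeneous d → (∀ z ∈ Y, eval z F = 0) →
      ∃ a ∈ Av, eval a F ≠ 0) :
    ∃ a ∈ Av, finrank ℝ (van d (insert a Y)) ≤ finrank ℝ (van d Y) - 1 := by
  have hle : ∀ a, van d (insert a Y) ≤ van d Y := fun a F hF =>
    mem_van.2 fun z hz => mem_van.1 hF z (mem_insert_of_mem hz)
  by_cases h0 : OnC d Y
  · obtain ⟨F, f0, hF, h1⟩ := h0
    obtain ⟨a, ha, h2⟩ := h F f0 hF h1
    refine ⟨a, ha, Nat.le_sub_one_of_lt (Submodule.finrank_lt_finrank_of_lt ((hle a).lt_of_ne ?_))⟩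
    intro e
    have : (⟨F, hF⟩ : Hs d) ∈ van d (insert a Y) := e ▸ mem_van.2 h1
    exact h2 (mem_van.1 this a (mem_insert_self _ _))
  · obtain ⟨a, ha⟩ := hne
    rw [onC_iff] at h0
    have := Submodule.finrank_mono (hle a)
    exact ⟨a, ha, by omega⟩

/-- a conic with many points and no long line has no three collinear points -/
theorem conic_no_three {S : Finset V3} (hS : PD S) {k : ℕ}
    (hl : ∀ l : V3, l ≠ 0 → (zer S (lin l)).card ≤ k) {Q : Pol} (h0 : Q ≠ 0)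
    (hQ : Q.IsHomogeneous 2) (hc : 2 * k < (zer S Q).card) (hk : 2 ≤ k) :
    ∀ l : V3, l ≠ 0 → (zer (zer S Q) (lin l)).card ≤ 2 := by
  intro l hl0
  by_contra hcon
  set A := zer S Q with hA
  have hAS : A ⊆ S := zer_subset _ _
  obtain ⟨B, hB, hB3⟩ := exists_subset_card_eq (show 3 ≤ (zer A (lin l)).card by omega)
  have h1 := (card_zer_mono hAS (lin l)).trans (hl l hl0)
  have h2 := card_sdiff_add_card_eq_card (zer_subset A (lin l))
  set A' := A \ zer A (lin l) with hA'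
  have hA'S : A' ⊆ S := sdiff_subset.trans hAS
  obtain ⟨u, hu, v, hv, huv⟩ := one_lt_card.1 (show 1 < A'.card by omega)
  have h3 := (card_zer_mono hA'S (lin (u ⨯₃ v))).trans (hl _ (hS.2 u (hA'S hu) v (hA'S hv) huv))
  obtain ⟨w, hw, hwn⟩ := exists_mem_notMem_of_card_lt_card
    (show (zer A' (lin (u ⨯₃ v))).card < A'.card by omega)
  have hw0 : (u ⨯₃ v) ⬝ᵥ w ≠ 0 := fun e => hwn (mem_zer.2 ⟨hw, by simpa using e⟩)
  have hwu : w ≠ u := fun e => hw0 (e ▸ cross_dot1 _ _)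
  have hwv : w ≠ v := fun e => hw0 (e ▸ cross_dot2 _ _)
  have hTA : ({w, u, v} : Finset V3) ⊆ A' := by
    intro z hz
    simp only [mem_insert, mem_singleton] at hz
    rcases hz with rfl | rfl | rfl <;> assumption
  have hT3 : ({w, u, v} : Finset V3).card = 3 := card_eq_three.2 ⟨w, u, v, hwu, hwv, huv, rfl⟩
  have hTi : Ind 1 {w, u, v} := by
    refine ind_small (hS.mono (hTA.trans hA'S)) hT3.le (gen_insert
      (hS.mono ((subset_insert _ _).trans (hTA.trans hA'S))) (fun m _ =>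
        (card_le_card (zer_subset _ _)).trans card_le_two) fun x hx y hy hxy => ?_)
    simp only [mem_insert, mem_singleton] at hx hy
    rcases hx with rfl | rfl <;> rcases hy with rfl | rfl
    · exact absurd rfl hxy
    · exact hw0
    · rw [← cross_anticomm, neg_dotProduct]
      exact neg_ne_zero.2 hw0
    · exact absurd rfl hxy
  have hBA : B ⊆ A := hB.trans (zer_subset _ _)
  have h4 : Ind (1 + 1) (B ∪ {w, u, v}) := ind_split (lin_hom l)
    (ind_of_card_le (hS.mono (hBA.trans hAS)) hB3.le) hTi (fun z hz => (mem_zer.1 (hB hz)).2)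
    fun z hz e => (mem_sdiff.1 (hTA hz)).2 (mem_zer.2 ⟨(mem_sdiff.1 (hTA hz)).1, e⟩)
  refine (onC_iff_not_ind (d := 2) ?_).1 ⟨Q, h0, hQ, fun z hz => ?_⟩ h4
  · rw [card_union_of_disjoint (disjoint_left.2 fun z h5 h6 => (mem_sdiff.1 (hTA h6)).2 (hB h5)),
      hB3, hT3]
    rfl
  · rcases mem_union.1 hz with h | h
    · exact (mem_zer.1 (hBA h)).2
    · exact (mem_zer.1 (mem_sdiff.1 (hTA h)).1).2

end Pool.Agent.P.MP_ed12bb_co
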